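import Pool.Agent.WSatUp.Numbers2

/-! The links above the first one for circuits with shared gates. -/

namespace Pool.Agent.WSatUp

open Finset Pool.Agent.ParityAC Pool.Agent.WSatChain Pool.Agent.WSatCount Pool.Agent.WSatAC0 Filter

theorem card_UN_ge {k N A1 : ℕ} {B : Type} [Fintype B] {s : ℕ} (hk : 1 ≤ k) :
    N ≤ Nat.card (UN k N A1 B s) := by
  let φ : Fin N → UN k N A1 B s := fun a => ⟨Nd.var (⟨0, hk⟩ : Fin k) a, trivial⟩
  have hφ : Function.Injective φ := by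
    intro a a' h
    have h1 : (Nd.var (⟨0, hk⟩ : Fin k) a : Nd k N A1 B) = Nd.var ⟨0, hk⟩ a' :=
      congrArg Subtype.val h
    simp only [Nd.var.injEq, true_and] at h1
    exact h1
  have h := Nat.card_le_card_of_injective φ hφ
  rwa [Nat.card_fin] at h

/-- the contradiction, with all numbers -/
theorem big2 {s d D r a q k e1 c c1 s1 c2 s2 b w C0 L n : ℕ}
    (hr : r = 8 * (c + 1)) (ha : a = 384 * (c + 1) + s + 6)
    (hq : cL d (r ^ 2) + (s + 1) * (6 * r ^ 2) + 3 * r ^ 2 + 2 * r ^ 2 = q)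
    (hk : q + a + 6 ≤ k) (hc1 : c1 = c * (2 * a + 2 * s + 8) + 1)
    (hw : w = (c1 + 1) + a * (r + 1)) (hC0 : C0 = 4 * r ^ 2 * w + 4)
    (hs1 : s1 = b / (4 * r ^ 2) + 1) (hc2 : c2 = (c1 + 1) * (e1 + 1))
    (hs2 : s2 = c2 * (s + 1) + 2) (hL : L = 2 ^ b)
    (t1 : e1 ≤ L) (t2 : 40 * (k + 1) ^ 2 + 1 ≤ L) (t3 : 8 ≤ L) (t4 : 2 * k + 1 ≤ L)
    (t7 : 2 ^ k ≤ L) (t8 : (2 * q * 2 ^ k * 2 ^ (k + 1)) ^ s2 ≤ L)
    (t9 : (16 * (s2 - 1) + 1) * (16 * (c2 * s + 1)) ^ s ≤ b) (t10 : 2 * b ^ (s + 1) ≤ L)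
    (t11 : b + 1 ≤ L) (hb1 : 2 ≤ b) (hQ : (2 ^ C0 * b) ^ (D + 3) ≤ 2 ^ b)
    (e : UN k (L ^ a) (L ^ 2) (Fin b) s ≃ Fin n) (F : Red (Bit n))
    (hM0 : F.M ≤ e1 * (n + 1) ^ c) (hK : F.K ≤ e1) {m : ℕ} (hm0 : m ≤ e1 * (n + 1) ^ c)
    {g : Fin m → (Bit n → Bool) → Bool} (hg : IsCkt D g) (hF : F.All (fun f => ∃ i, g i = f))
    (hG : ∀ X : Dat k (L ^ a) (L ^ 2) (Fin b), GAMMA (s + 1) d _ (F.apply (bits (srcF e X))))
    (hred : ∀ X : Dat k (L ^ a) (L ^ 2) (Fin b), (srcF e X).WSat (k + 1) ↔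
      (F.apply (bits (srcF e X))).WSat (F.param (bits (srcF e X)))) : False := by
  have hLp : ∀ m, 1 ≤ L ^ m := fun m => Nat.one_le_pow _ _ (by omega)
  have hn : n + 1 ≤ L ^ (2 * a + 2 * s + 8) := by
    have h1 := count_nodes (s := s) (a := a) hL t2 t11
    have h2 : Nat.card (UN k (L ^ a) (L ^ 2) (Fin b) s) = n := by
      rw [Nat.card_congr e, Nat.card_fin]
    rw [h2] at h1
    exact h1
  -- the size of the circuits
  have hS0 : e1 * (n + 1) ^ c ≤ L ^ c1 := by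
    calc e1 * (n + 1) ^ c ≤ L * (L ^ (2 * a + 2 * s + 8)) ^ c :=
          Nat.mul_le_mul t1 (Nat.pow_le_pow_left hn _)
      _ = L ^ c1 := by
          rw [← pow_mul, ← pow_succ', hc1]
          congr 1
          ring
  have hM : F.M ≤ L ^ c1 := hM0.trans hS0
  have hm : m ≤ L ^ c1 := hm0.trans hS0
  have hKS : F.K ≤ L ^ c1 := by
    refine hK.trans (t1.trans ?_)
    calc L = L ^ 1 := (pow_one L).symm
      _ ≤ L ^ c1 := Nat.pow_le_pow_right (by omega) (by omega)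
  have hr2 : 2 ≤ r := by omega
  have hLc2 : L ^ c1 + 1 ≤ L ^ (c1 + 1) := by
    have := hLp c1
    calc L ^ c1 + 1 ≤ L ^ c1 * 2 := by omega
      _ ≤ L ^ c1 * L := Nat.mul_le_mul_left _ (by omega)
      _ = _ := (pow_succ _ _).symm
  have hS' : L ^ c1 + F.K ≤ L ^ c2 := by
    have h1 : L ^ c1 + F.K ≤ L ^ (c1 + 1) := by
      calc L ^ c1 + F.K ≤ L ^ c1 * 2 := by omega
        _ ≤ L ^ c1 * L := Nat.mul_le_mul_left _ (by omega)
        _ = _ := (pow_succ _ _).symm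
    refine h1.trans (Nat.pow_le_pow_right (by omega) ?_)
    rw [hc2]
    exact Nat.le_mul_of_pos_right _ (by omega)
  have hS'' : (F.M + 1) ^ (F.K + 1) ≤ L ^ c2 := by
    calc (F.M + 1) ^ (F.K + 1) ≤ (L ^ (c1 + 1)) ^ (F.K + 1) :=
          Nat.pow_le_pow_left (by omega) _
      _ ≤ (L ^ (c1 + 1)) ^ (e1 + 1) := Nat.pow_le_pow_right (hLp _) (by omega)
      _ = L ^ c2 := by rw [← pow_mul, hc2]
  -- the number of steps
  have hr1 : 1 ≤ 4 * r ^ 2 := by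
    have : 1 ≤ r ^ 2 := Nat.one_le_pow _ _ (by omega)
    omega
  have hdm := Nat.div_add_mod b (4 * r ^ 2)
  have hml := Nat.mod_lt b (show 4 * r ^ 2 > 0 by omega)
  have hs1a : b ≤ 4 * r ^ 2 * s1 := by
    rw [hs1, Nat.mul_add, mul_one]
    omega
  have hs1b : s1 ≤ b := by
    have h1 : b / (4 * r ^ 2) ≤ b / 2 := by
      apply Nat.div_le_div_left _ (by norm_num)
      have : 1 ≤ r ^ 2 := Nat.one_le_pow _ _ (by omega)
      omega
    omega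
  have hs1c : (s1 - 1) * (4 * r ^ 2) ≤ b := by
    have h1 : s1 - 1 = b / (4 * r ^ 2) := by
      rw [hs1]
      exact Nat.add_sub_cancel _ _
    rw [h1]
    exact Nat.div_mul_le_self _ _
  have hD3 : D + 3 ≤ b := by
    have h1 : 2 ≤ 2 ^ C0 * b := by
      have : 1 ≤ 2 ^ C0 := Nat.one_le_two_pow
      calc 2 ≤ 1 * b := by omega
        _ ≤ 2 ^ C0 * b := Nat.mul_le_mul_right _ this
    have h2 : 2 ^ (D + 3) ≤ 2 ^ b := (Nat.pow_le_pow_left h1 _).trans hQ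
    exact (Nat.pow_le_pow_iff_right (by norm_num)).1 h2
  -- real numbers
  have hYL : (L : ℝ) = 2 ^ b := by
    rw [hL]
    push_cast
    rfl
  have hY : (8 : ℝ) ≤ (2 : ℝ) ^ b := by
    rw [← hYL]
    exact_mod_cast t3
  have hp2 : (1 / 2 : ℝ) ^ b = 1 / 2 ^ b := by
    rw [one_div, one_div, inv_pow]
  generalize hYY : (2 : ℝ) ^ b = Y at hY
  have hY0 : 0 < Y := by linarith
  have hY1 : 1 ≤ Y := by linarith
  have hp : (1 : ℝ) / Y ≤ 1 / 2 := by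
    apply one_div_le_one_div_of_le (by norm_num)
    linarith
  have hp0 : (0 : ℝ) < 1 / Y := by positivity
  have hGc : Fintype.card (Gc (Fin b) s (L ^ 2)) ≤ L ^ 3 := by
    rw [card_Gc]
    calc b ^ (s + 1) * 2 * L ^ 2 = 2 * b ^ (s + 1) * L ^ 2 := by ring
      _ ≤ L * L ^ 2 := Nat.mul_le_mul_right _ t10
      _ = L ^ 3 := by ring
  have hGcR : (Fintype.card (Gc (Fin b) s (L ^ 2)) : ℝ) ≤ Y ^ 3 := by
    rw [← hYY, ← hYL]
    exact_mod_cast hGc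
  have hEc : Fintype.card (Es k (Gc (Fin b) s (L ^ 2))) + 1 ≤ L ^ 4 := by
    rw [Fintype.card_prod, Fintype.card_sum, Fintype.card_fin]
    have h1 : k ≤ L ^ 3 := by
      calc k ≤ L := by omega
        _ = L ^ 1 := (pow_one L).symm
        _ ≤ L ^ 3 := Nat.pow_le_pow_right (by omega) (by omega)
    calc k * (k + Fintype.card (Gc (Fin b) s (L ^ 2))) + 1 ≤ k * (L ^ 3 + L ^ 3) + L ^ 3 := by
          have := hLp 3
          have h2 := Nat.mul_le_mul_left k (Nat.add_le_add h1 hGc)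
          omega
      _ = (2 * k + 1) * L ^ 3 := by ring
      _ ≤ L * L ^ 3 := Nat.mul_le_mul_right _ t4
      _ = L ^ 4 := by ring
  have hEcR : ((Fintype.card (Es k (Gc (Fin b) s (L ^ 2))) + 1 : ℕ) : ℝ) ≤ Y ^ 4 := by
    rw [← hYY, ← hYL]
    exact_mod_cast hEc
  have hcount : ((m : ℝ) * (m + 1) + cst (L ^ c1) 1) ≤ Y ^ (2 * c1 + 2) := by
    have h1 : m * (m + 1) + cst (L ^ c1) 1 ≤ L ^ (2 * c1 + 2) := by
      have h2 : cst (L ^ c1) 1 = L ^ c1 := by simp [cst]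
      rw [h2]
      have h3 : m * (m + 1) ≤ L ^ c1 * (L ^ c1 + 1) := Nat.mul_le_mul hm (by omega)
      have h4 : L ^ c1 ≤ L ^ c1 * L ^ c1 := Nat.le_mul_of_pos_left _ (hLp c1)
      calc m * (m + 1) + L ^ c1 ≤ L ^ c1 * L ^ c1 * 3 := by
            have : L ^ c1 * (L ^ c1 + 1) = L ^ c1 * L ^ c1 + L ^ c1 := by ring
            omega
        _ ≤ L ^ c1 * L ^ c1 * (L * L) := by
            apply Nat.mul_le_mul_left
            calc 3 ≤ 8 * 8 := by norm_num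
              _ ≤ L * L := Nat.mul_le_mul t3 t3
        _ = L ^ (2 * c1 + 2) := by ring
    rw [← hYY, ← hYL]
    exact_mod_cast h1
  have hX : (((D : ℝ) + 2) * m + (1 : ℕ) * ((L ^ c1 : ℕ) : ℝ) ^ 1) ≤ ((2 : ℝ) ^ b) ^ (c1 + 1) := by
    have h1 : (D + 2) * m + 1 * (L ^ c1) ^ 1 ≤ L ^ (c1 + 1) := by
      calc (D + 2) * m + 1 * (L ^ c1) ^ 1 ≤ (D + 2) * L ^ c1 + L ^ c1 := by
            have := Nat.mul_le_mul_left (D + 2) hm
            rw [pow_one, one_mul]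
            omega
        _ = (D + 3) * L ^ c1 := by ring
        _ ≤ L * L ^ c1 := Nat.mul_le_mul_right _ (by omega)
        _ = L ^ (c1 + 1) := (pow_succ' _ _).symm
    rw [← hYL]
    exact_mod_cast h1
  have hz : ((L ^ a : ℕ) : ℝ) * ((1 / 2) ^ b) ^ k = (Y ^ (k - a))⁻¹ := by
    rw [hp2]
    push_cast
    rw [hYL, hYY, one_div, inv_pow]
    have : Y ^ k = Y ^ a * Y ^ (k - a) := by
      rw [← pow_add]
      congr 1
      omega
    rw [this, mul_inv, ← mul_assoc, mul_inv_cancel₀ (by positivity), one_mul]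
  have hz6 : ((L ^ a : ℕ) : ℝ) * ((1 / 2) ^ b) ^ k ≤ (Y ^ 6)⁻¹ := by
    rw [hz]
    apply inv_anti₀ (by positivity)
    exact pow_le_pow_right₀ hY1 (by omega)
  have hb0 := est_bad hY (z := ((L ^ a : ℕ) : ℝ) * ((1 / 2) ^ b) ^ k) (by positivity) hz6 hGcR
    (k := k) (by rw [← hYY, ← hYL]; exact_mod_cast t7) rfl
  obtain ⟨l, hl⟩ : ∃ l : ℝ, l = ((2 : ℝ) ^ C0 * b)⁻¹ := ⟨_, rfl⟩
  have hbR : (0 : ℝ) < b := by
    have : 0 < b := by omega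
    exact_mod_cast this
  have hl0 : 0 < l := by
    rw [hl]
    positivity
  have hl1 : l ≤ 1 / 2 := by
    rw [hl, one_div]
    apply inv_anti₀ (by norm_num)
    have h1 : (1 : ℝ) ≤ 2 ^ C0 := one_le_pow₀ (by norm_num)
    have h2 : (2 : ℝ) ≤ b := by exact_mod_cast hb1
    nlinarith
  have herr := est_err2 (b := b) (r := r) (w := w) (s1 := s1) (C0 := C0) (u := c1 + 1)
    (m := a * (r + 1)) (l := l) hs1a hs1b (by omega) hC0 hl hX hw
  have hqi := q_inv (b := b) (C0 := C0) (D := D + 3) (by omega) hQ hl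
  rw [hYY] at herr hqi
  have hpow : ((2 : ℝ) ^ (s1 - 1)) ^ (4 * r ^ 2) ≤ Y := by
    rw [← pow_mul, ← hYY]
    exact pow_le_pow_right₀ (by norm_num) hs1c
  have hmu := mu_le2 (Y := Y) (by linarith) (N := L ^ a) (r := r) (dd := s1 - 1) (a := a)
    (E := Es k (Gc (Fin b) s (L ^ 2))) (q := (1 / 2 : ℝ) ^ b * l ^ (D + 3)) (err := _) hEcR
    (by positivity) hqi (by push_cast; rw [hYL, hYY]) hpow herr (by positivity)
  have hmain := est_main2 hY (C := ((m : ℝ) * (m + 1) + cst (L ^ c1) 1))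
    (u := 2 * c1 + 2) (v := 24 * r ^ 2 + 2) (m := a * (r + 1)) hcount
    (μ := _) ?_ hmu ?_
  · refine core2 e F hg hF hG hred (hLp a) (t := b) (by omega) (l := l) (κ := 4 * l)
      (rw_hf hl0.le hl1) hl0 hr2 (hLp c1) hm (s1 := s1) (by rw [hs1]; exact Nat.le_add_left _ _)
      ?_ hM hS' hS''
      hq (by omega) (s2 := s2) (by omega) (l2 := 1 / Y) hp0.le hp ?_ (σ := b * (c2 * s) + 1)
      (by omega) ?_ ?_
    · -- first number
      have e3 : (Fintype.card (Gc (Fin b) s (L ^ 2)) : ℝ) * ((L ^ a : ℕ) : ℝ) *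
          ((1 / 2) ^ b) ^ k =
          (Fintype.card (Gc (Fin b) s (L ^ 2)) : ℝ) * (((L ^ a : ℕ) : ℝ) * ((1 / 2) ^ b) ^ k) := by
        ring
      rw [e3]
      have e4 : D + 2 + 1 = D + 3 := rfl
      rw [e4]
      linarith
    · -- second number
      have h1 : (Fintype.card (VV (Fin b) s × ZMod 2) : ℝ) ≤ L := by
        rw [Fintype.card_prod, card_vector, Fintype.card_fin, ZMod.card]
        have : b ^ (s + 1) * 2 ≤ L := by
          rw [mul_comm]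
          exact t10
        exact_mod_cast this
      have h2 := est_col (L := L) (by omega) h1
      rw [hYL, hYY] at h2
      have h3 := est_peel hY (c2 := c2) (s := s) (s2 := s2) (S' := ((L ^ c2 : ℕ) : ℝ))
        (t := 2 * q * 2 ^ k * 2 ^ (k + 1)) (by push_cast; rw [hYL, hYY]) hs2
        (by rw [← hYY, ← hYL]; exact_mod_cast t8) (v := 2 * q * 2 ^ k * (2 ^ (k + 1) * (1 / Y)))
        (by ring)
      linarith
    · rw [hL, ← pow_mul, ← pow_mul]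
      exact Nat.pow_lt_pow_right (by norm_num) (Nat.lt_succ_self _)
    · rw [Fintype.card_fin]
      refine (bnd_le _ (by omega) _ _).trans ?_
      have h2 : 16 * (b * (c2 * s) + 1) ≤ 16 * (c2 * s + 1) * b := by
        have h3 : 16 * (c2 * s + 1) * b = 16 * (b * (c2 * s)) + 16 * b := by ring
        omega
      calc (16 * (s2 - 1) + 1) * (16 * (b * (c2 * s) + 1)) ^ s
          ≤ (16 * (s2 - 1) + 1) * (16 * (c2 * s + 1) * b) ^ s :=
            Nat.mul_le_mul_left _ (Nat.pow_le_pow_left h2 _)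
        _ = (16 * (s2 - 1) + 1) * (16 * (c2 * s + 1)) ^ s * b ^ s := by
            rw [mul_pow]
            ring
        _ ≤ b * b ^ s := Nat.mul_le_mul_right _ t9
        _ = b ^ (s + 1) := by rw [pow_succ']
  · unfold mu
    positivity
  · -- the exponent
    have h1 : a * (r + 1) = 8 * (a * c) + 9 * a := by
      rw [hr]
      ring
    have h2 : 2 * c1 = 4 * (a * c) + c * (4 * s + 16) + 2 := by
      rw [hc1]
      ring
    have h3 : a * c = 384 * (c * (c + 1)) + c * (s + 6) := by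
      rw [ha]
      ring
    have h4 : 24 * r ^ 2 = 1536 * (c * (c + 1)) + 1536 * (c + 1) := by
      rw [hr]
      ring
    have h5 : c * (4 * s + 16) = 4 * (c * s) + 16 * c := by ring
    have h6 : c * (s + 6) = c * s + 6 * c := by ring
    rw [h1, h2, h4, h5, h3, h6, ha]
    omega

theorem split7 {a1 a2 a3 a4 a5 a6 a7 b : ℕ} (h : a1 + a2 + a3 + a4 + a5 + a6 + a7 ≤ b) :
    a1 ≤ b ∧ a2 ≤ b ∧ a3 ≤ b ∧ a4 ≤ b ∧ a5 ≤ b ∧ a6 ≤ b ∧ a7 ≤ b := by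
  refine ⟨?_, ?_, ?_, ?_, ?_, ?_, ?_⟩ <;> omega

theorem k_bound {s d c r a q k : ℕ} (hr : r = 8 * (c + 1)) (ha : a = 384 * (c + 1) + s + 6)
    (hq : cL d (r ^ 2) + (s + 1) * (6 * r ^ 2) + 3 * r ^ 2 + 2 * r ^ 2 = q)
    (hk : (40000 * (d + 1) + 7000 * (s + 1)) * (c + 1) ^ 4 ≤ k) : q + a + 7 ≤ k := by
  refine le_trans ?_ hk
  obtain ⟨z, hz⟩ : ∃ z, z = c + 1 := ⟨_, rfl⟩
  have hz1 : 1 ≤ z := by omega
  rw [← hz] at hr ha ⊢
  have e1 : z ≤ z ^ 2 := by nlinarith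
  have e2 : z ^ 2 ≤ z ^ 4 := Nat.pow_le_pow_right hz1 (by norm_num)
  have e3 : 1 ≤ z ^ 4 := Nat.one_le_pow _ _ hz1
  have hr2 : r ^ 2 = 64 * z ^ 2 := by
    rw [hr]
    ring
  have h1 : cL d (r ^ 2) = 32768 * (d + 1) * z ^ 4 + 256 * (d + 1) * z ^ 2 + 256 * z ^ 2 := by
    rw [hr2]
    unfold cL
    ring
  have h2 : 256 * (d + 1) * z ^ 2 ≤ 256 * (d + 1) * z ^ 4 := Nat.mul_le_mul_left _ e2
  have h3 : (s + 1) * (6 * (64 * z ^ 2)) ≤ (s + 1) * 384 * z ^ 4 := by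
    calc (s + 1) * (6 * (64 * z ^ 2)) = (s + 1) * 384 * z ^ 2 := by ring
      _ ≤ _ := Nat.mul_le_mul_left _ e2
  have h4 : s ≤ s * z ^ 4 := Nat.le_mul_of_pos_right _ (by omega)
  have h5 : (40000 * (d + 1) + 7000 * (s + 1)) * z ^ 4 = 32768 * (d + 1) * z ^ 4 +
      256 * (d + 1) * z ^ 4 + 6976 * (d * z ^ 4) + 6976 * z ^ 4 + (s + 1) * 384 * z ^ 4 +
      6616 * (s * z ^ 4) + 6616 * z ^ 4 := by ring
  rw [← hq, h1, hr2, h5, ha]
  have h6 : 0 ≤ d * z ^ 4 := Nat.zero_le _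
  omega

/-- **The links above the first one** -/
theorem not_slice_up (s d c k : ℕ) (hk : (40000 * (d + 1) + 7000 * (s + 1)) * (c + 1) ^ 4 ≤ k)
    (D : ℕ → ℕ)
    (hD : ∀ᶠ n : ℕ in atTop, ((40000 * (d + 1) + 7000 * (s + 1)) * (c + 1) : ℕ) * (D n : ℝ) *
      Real.log (Real.log n) ≤ Real.log n) :
    ¬ SliceAC D c k (GAMMA (s + 2) 1) (GAMMA (s + 1) d) := by
  rintro ⟨e1, F, hF, hred⟩
  obtain ⟨r, hr⟩ : ∃ r, r = 8 * (c + 1) := ⟨_, rfl⟩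
  obtain ⟨a, ha⟩ : ∃ a, a = 384 * (c + 1) + s + 6 := ⟨_, rfl⟩
  obtain ⟨q, hq⟩ : ∃ q, cL d (r ^ 2) + (s + 1) * (6 * r ^ 2) + 3 * r ^ 2 + 2 * r ^ 2 = q :=
    ⟨_, rfl⟩
  have hk' := k_bound hr ha hq hk
  obtain ⟨k, rfl⟩ : ∃ k0, k = k0 + 1 := ⟨k - 1, by omega⟩
  have hk2 : q + a + 6 ≤ k := by omega
  obtain ⟨c1, hc1⟩ : ∃ c1, c1 = c * (2 * a + 2 * s + 8) + 1 := ⟨_, rfl⟩
  obtain ⟨w, hw⟩ : ∃ w, w = (c1 + 1) + a * (r + 1) := ⟨_, rfl⟩
  obtain ⟨C0, hC0⟩ : ∃ C0, C0 = 4 * r ^ 2 * w + 4 := ⟨_, rfl⟩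
  obtain ⟨c2, hc2⟩ : ∃ c2, c2 = (c1 + 1) * (e1 + 1) := ⟨_, rfl⟩
  obtain ⟨s2, hs2⟩ : ∃ s2, s2 = c2 * (s + 1) + 2 := ⟨_, rfl⟩
  obtain ⟨T, hT⟩ : ∃ T, T = e1 + (40 * (k + 1) ^ 2 + 1) + 8 + (2 * k + 1) + 2 ^ k +
    (2 * q * 2 ^ k * 2 ^ (k + 1)) ^ s2 + (16 * (s2 - 1) + 1) * (16 * (c2 * s + 1)) ^ s :=
    ⟨_, rfl⟩
  have hA : 8 * ((2 * a + 2 * s + 8 : ℕ) : ℝ) ≤
      (((40000 * (d + 1) + 7000 * (s + 1)) * (c + 1) : ℕ) : ℝ) := by
    have h1 : 8 * (2 * a + 2 * s + 8) ≤ (40000 * (d + 1) + 7000 * (s + 1)) * (c + 1) := by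
      rw [ha]
      have h2 : (40000 * (d + 1) + 7000 * (s + 1)) * (c + 1) = 40000 * ((d + 1) * (c + 1)) +
          7000 * (s * c) + 7000 * s + 7000 * (c + 1) := by ring
      have h3 : c + 1 ≤ (d + 1) * (c + 1) := Nat.le_mul_of_pos_left _ (by omega)
      omega
    exact_mod_cast h1
  obtain ⟨b, hb1, hb2, hb3⟩ : ∃ b, T ≤ b ∧ (2 * b) ^ (s + 1) ≤ 2 ^ b ∧ ∀ n : ℕ, 2 ^ b ≤ n →
      n ≤ 2 ^ (b * (2 * a + 2 * s + 8)) → (2 ^ C0 * b) ^ (D n + 3) ≤ 2 ^ b :=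
    ((eventually_ge_atTop T).and ((growth 2 (s + 1)).and
      (depth_ok (A := 2 * a + 2 * s + 8) (by omega) hA hD))).exists
  have hbL : b < 2 ^ b := Nat.lt_two_pow_self
  have hbL' : b ≤ 2 ^ b := hbL.le
  rw [hT] at hb1
  obtain ⟨u1, u2, u3, u4, u7, u8, u9⟩ := split7 hb1
  have t10 : 2 * b ^ (s + 1) ≤ 2 ^ b := by
    refine le_trans ?_ hb2
    rw [mul_pow]
    apply Nat.mul_le_mul_right
    calc 2 = 2 ^ 1 := rfl
      _ ≤ 2 ^ (s + 1) := Nat.pow_le_pow_right (by norm_num) (by omega)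
  obtain ⟨n, hn⟩ : ∃ n, n = Nat.card (UN k ((2 ^ b) ^ a) ((2 ^ b) ^ 2) (Fin b) s) := ⟨_, rfl⟩
  let e : UN k ((2 ^ b) ^ a) ((2 ^ b) ^ 2) (Fin b) s ≃ Fin n :=
    (Finite.equivFinOfCardEq hn.symm)
  obtain ⟨h1, h2, m, h3, g, h5, h6⟩ := hF n
  have h4 : ∀ X : Dat k ((2 ^ b) ^ a) ((2 ^ b) ^ 2) (Fin b),
      GAMMA (s + 2) 1 _ (srcF e X) := fun X =>
    isoInv_gamma (s + 2) 1 _ _ _ _ e (srcF_iso e X) srcN_gamma
  have hnlo : 2 ^ b ≤ n := by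
    rw [hn]
    refine le_trans ?_ (card_UN_ge (by omega))
    calc 2 ^ b = (2 ^ b) ^ 1 := (pow_one _).symm
      _ ≤ (2 ^ b) ^ a := Nat.pow_le_pow_right (by omega) (by omega)
  have hnhi : n ≤ 2 ^ (b * (2 * a + 2 * s + 8)) := by
    have h7 := count_nodes (s := s) (a := a) (k := k) (b := b) rfl (u2.trans hbL') hbL
    rw [← hn, ← pow_mul] at h7
    omega
  exact big2 (s := s) (d := d) (D := D n) (L := 2 ^ b) (n := n) hr ha hq hk2 hc1 hw hC0 rfl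
    hc2 hs2 rfl (u1.trans hbL') (u2.trans hbL') (u3.trans hbL') (u4.trans hbL') (u7.trans hbL')
    (u8.trans hbL') u9 t10 hbL (by omega) (hb3 n hnlo hnhi) e (F n) h1 h2 h3 h5 h6
    (fun X => (hred n (srcF e X) (h4 X)).1) (fun X => (hred n (srcF e X) (h4 X)).2)

end Pool.Agent.WSatUp
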