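import Pool.Agent.WSatUp.Gam11b
import Pool.Agent.WSatUp.Final2
import Pool.Agent.WSatAC0.First

/-! The first link for circuits with shared gates. -/

namespace Pool.Agent.WSatUp

open Finset Pool.Agent.ParityAC Pool.Agent.WSatChain Pool.Agent.WSatCount Pool.Agent.WSatAC0 Filter

theorem core1b {k N : ℕ} {n : ℕ} (e : N2 k N ≃ Fin n) (F : Red (Bit n)) {S D r m : ℕ}
    {g : Fin m → (Bit n → Bool) → Bool} (hg : IsCkt D g) (hF : F.All (fun f => ∃ i, g i = f))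
    (hG : ∀ eb, GAMMA 1 1 _ (F.apply (bits (src2F e eb))))
    (hred : ∀ eb, (src2F e eb).WSat k ↔
      (F.apply (bits (src2F e eb))).WSat (F.param (bits (src2F e eb))))
    (hN : 1 ≤ N) {t : ℕ} (ht : 0 < t) {l κ : ℝ} (H : RW hf l κ) (hl : 0 < l)
    (hr : 2 ≤ r) (hS : 2 ≤ S) (hmS : m ≤ S) {s1 : ℕ} (hs1 : 1 ≤ s1)
    (hnum1 : (((1 + N * ((1 / 2) ^ t) ^ k) ^ k - 1) +
      Fintype.card Empty * N * ((1 / 2) ^ t) ^ k) +
      (m * (m + 1) + cst S 13) * mu (Es k Empty) N r (s1 - 1) ((1 / 2) ^ t * l ^ (D + 2 + 13))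
        (((D + 2) * m + (13 : ℕ) * S ^ 13) * (4 * s1 * κ) ^ s1) < 1)
    (hM : F.M ≤ S) (hK : 2 ^ F.K ≤ S)
    (hthr : ∀ m ≤ F.K + 1, (m * F.M + 1) * (2 * m ^ 2 + 1) ^ m ≤ S) : k ≤ r := by
  classical
  obtain ⟨lev, hlev, hC⟩ := ck_of_isCkt hg (src2B_sm e)
  have hp0 : (0 : ℝ) ≤ (1 / 2) ^ t := by positivity
  have hp1 : (1 / 2 : ℝ) ^ t ≤ 1 := pow_le_one₀ (by norm_num) (by norm_num)
  let FX : Red (VB (Es k Empty) N) := F.comp (src2B e)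
  have hFX : FX.All (ACG (Cl fun i x => g i (src2B e x)) S 0) := by
    refine Red.comp_all ?_ hF
    rintro f ⟨i, rfl⟩
    exact Or.inr (Or.inl ⟨i, fun _ => rfl⟩)
  have hGX : ∀ x, GAMMA 1 1 _ (FX.apply x) := fun x => hG (eb2 x)
  have h1 := gam11_gen (fun _ h => h.neg) hFX hGX hS hM hK hthr
  rw [Nat.zero_add] at h1
  obtain ⟨ω, x, hbad, _, hgd⟩ := stage_one2 (ends := endsK) endsK_inj hN ht H hl hr hs1
    (by omega) hmS (by norm_num) hC hlev (fun ω x => BadE ω x ∨ BadC ω x)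
    (plant_bad hN hp0 hp1) h1 hnum1
  push Not at hbad
  refine dep_all hbad.1 (f := fun x => decide ((FX.apply x).WSat (FX.param x))) ?_ hgd
  intro x
  rw [decide_eq_true_eq]
  have h2 : (FX.apply x).WSat (FX.param x) ↔ (src2F e (eb2 x)).WSat k := (hred (eb2 x)).symm
  have h3 : (src2F e (eb2 x)).WSat k ↔ (src2 (eb2 x)).WSat k :=
    ⟨iso_wsat (src2F_iso e _).symm, iso_wsat (src2F_iso e _)⟩
  rw [h2, h3, src2_wsat]

theorem card_N2_ge {k N : ℕ} (hk : 1 ≤ k) : N ≤ Nat.card (N2 k N) := by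
  let φ : Fin N → N2 k N := fun a => N2.var (⟨0, hk⟩ : Fin k) a
  have hφ : Function.Injective φ := by
    intro a a' h
    have h1 : (N2.var (⟨0, hk⟩ : Fin k) a : N2 k N) = N2.var ⟨0, hk⟩ a' := h
    simp only [N2.var.injEq, true_and] at h1
    exact h1
  have h := Nat.card_le_card_of_injective φ hφ
  rwa [Nat.card_fin] at h

/-- the numbers for the first link -/
theorem big1b {D c0 c r a k e1 c1 s1 b w C0 L n : ℕ} (hc : c = c0 + 2)
    (hr : r = 52 * c) (ha : a = 2500 * c)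
    (hk : r + a + 6 ≤ k) (hc1 : c1 = c * (2 * a + 8) + 1)
    (hw : w = (13 * c1 + 1) + a * (r + 1)) (hC0 : C0 = 4 * r ^ 2 * w + 4)
    (hs1 : s1 = b / (4 * r ^ 2) + 1) (hL : L = 2 ^ b)
    (t1 : e1 ≤ L) (t2 : 40 * (k + 1) ^ 2 + 1 ≤ L) (t3 : 8 ≤ L) (t7 : 2 ^ k ≤ L)
    (t8 : 2 ^ e1 ≤ L) (t9 : (e1 + 2) * (2 * (e1 + 1) ^ 2 + 1) ^ (e1 + 1) ≤ L)
    (hb1 : 2 ≤ b) (hQ : (2 ^ C0 * b) ^ (D + 15) ≤ 2 ^ b)
    (e : N2 k (L ^ a) ≃ Fin n) (F : Red (Bit n)) (hM0 : F.M ≤ e1 * (n + 1) ^ c0)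
    (hK : F.K ≤ e1) {m : ℕ} (hm0 : m ≤ e1 * (n + 1) ^ c0)
    {g : Fin m → (Bit n → Bool) → Bool} (hg : IsCkt D g) (hF : F.All (fun f => ∃ i, g i = f))
    (hG : ∀ eb, GAMMA 1 1 _ (F.apply (bits (src2F e eb))))
    (hred : ∀ eb, (src2F e eb).WSat k ↔
      (F.apply (bits (src2F e eb))).WSat (F.param (bits (src2F e eb)))) : False := by
  have hLp : ∀ m, 1 ≤ L ^ m := fun m => Nat.one_le_pow _ _ (by omega)
  have hn : n + 1 ≤ L ^ (2 * a + 8) := by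
    have h1 := count_nodes2 (a := a) hL t2
    have h2 : Nat.card (N2 k (L ^ a)) = n := by
      rw [Nat.card_congr e, Nat.card_fin]
    rw [h2] at h1
    exact h1
  have hexp : (2 * a + 8) * c0 + 2 ≤ c1 := by
    rw [hc1, hc]
    have : (c0 + 2) * (2 * a + 8) = (2 * a + 8) * c0 + 2 * (2 * a + 8) := by ring
    omega
  have hS0 : e1 * (n + 1) ^ c0 ≤ L ^ ((2 * a + 8) * c0 + 1) := by
    calc e1 * (n + 1) ^ c0 ≤ L * (L ^ (2 * a + 8)) ^ c0 :=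
          Nat.mul_le_mul t1 (Nat.pow_le_pow_left hn _)
      _ = L ^ ((2 * a + 8) * c0 + 1) := by rw [← pow_mul, ← pow_succ']
  have hS1 : L ^ ((2 * a + 8) * c0 + 1) ≤ L ^ c1 := Nat.pow_le_pow_right (by omega) (by omega)
  have hM' : F.M ≤ L ^ ((2 * a + 8) * c0 + 1) := hM0.trans hS0
  have hM : F.M ≤ L ^ c1 := hM'.trans hS1
  have hm : m ≤ L ^ c1 := (hm0.trans hS0).trans hS1
  have hL1 : L ≤ L ^ c1 := by
    calc L = L ^ 1 := (pow_one L).symm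
      _ ≤ L ^ c1 := Nat.pow_le_pow_right (by omega) (by omega)
  have hK2 : 2 ^ F.K ≤ L ^ c1 :=
    (Nat.pow_le_pow_right (by norm_num) hK).trans (t8.trans hL1)
  have hthr : ∀ m ≤ F.K + 1, (m * F.M + 1) * (2 * m ^ 2 + 1) ^ m ≤ L ^ c1 := by
    intro m hm
    have h1 : m ≤ e1 + 1 := by omega
    have h2 : m * F.M + 1 ≤ (e1 + 2) * L ^ ((2 * a + 8) * c0 + 1) := by
      have h3 := Nat.mul_le_mul h1 hM'
      have h4 := hLp ((2 * a + 8) * c0 + 1)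
      have h5 : (e1 + 2) * L ^ ((2 * a + 8) * c0 + 1) =
          (e1 + 1) * L ^ ((2 * a + 8) * c0 + 1) + L ^ ((2 * a + 8) * c0 + 1) := by ring
      omega
    calc (m * F.M + 1) * (2 * m ^ 2 + 1) ^ m
        ≤ (e1 + 2) * L ^ ((2 * a + 8) * c0 + 1) * (2 * (e1 + 1) ^ 2 + 1) ^ (e1 + 1) := by
          apply Nat.mul_le_mul h2
          calc (2 * m ^ 2 + 1) ^ m ≤ (2 * (e1 + 1) ^ 2 + 1) ^ m := by gcongr
            _ ≤ _ := Nat.pow_le_pow_right (by omega) h1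
      _ = ((e1 + 2) * (2 * (e1 + 1) ^ 2 + 1) ^ (e1 + 1)) * L ^ ((2 * a + 8) * c0 + 1) := by ring
      _ ≤ L * L ^ ((2 * a + 8) * c0 + 1) := Nat.mul_le_mul_right _ t9
      _ = L ^ ((2 * a + 8) * c0 + 2) := by rw [← pow_succ']
      _ ≤ L ^ c1 := Nat.pow_le_pow_right (by omega) hexp
  have hr2 : 2 ≤ r := by omega
  -- the number of steps
  have hr1 : 1 ≤ 4 * r ^ 2 := by
    have : 1 ≤ r ^ 2 := Nat.one_le_pow _ _ (by omega)
    omega
  have hdm := Nat.div_add_mod b (4 * r ^ 2)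
  have hml := Nat.mod_lt b (show 4 * r ^ 2 > 0 by omega)
  have hs1a : b ≤ 4 * r ^ 2 * s1 := by
    rw [hs1, Nat.mul_add, mul_one]
    omega
  have hs1b : s1 ≤ b := by
    have h1 : b / (4 * r ^ 2) ≤ b / 2 := by
      apply Nat.div_le_div_left _ (by norm_num)
      have : 1 ≤ r ^ 2 := Nat.one_le_pow _ _ (by omega)
      omega
    omega
  have hs1c : (s1 - 1) * (4 * r ^ 2) ≤ b := by
    have h1 : s1 - 1 = b / (4 * r ^ 2) := by
      rw [hs1]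
      exact Nat.add_sub_cancel _ _
    rw [h1]
    exact Nat.div_mul_le_self _ _
  have hbL : b < L := by
    rw [hL]
    exact Nat.lt_two_pow_self
  have hD3 : D + 15 ≤ b := by
    have h1 : 2 ≤ 2 ^ C0 * b := by
      have : 1 ≤ 2 ^ C0 := Nat.one_le_two_pow
      calc 2 ≤ 1 * b := by omega
        _ ≤ 2 ^ C0 * b := Nat.mul_le_mul_right _ this
    have h2 : 2 ^ (D + 15) ≤ 2 ^ b := (Nat.pow_le_pow_left h1 _).trans hQ
    exact (Nat.pow_le_pow_iff_right (by norm_num)).1 h2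
  -- real numbers
  have hYL : (L : ℝ) = 2 ^ b := by
    rw [hL]
    push_cast
    rfl
  have hY : (8 : ℝ) ≤ (2 : ℝ) ^ b := by
    rw [← hYL]
    exact_mod_cast t3
  have hp2 : (1 / 2 : ℝ) ^ b = 1 / 2 ^ b := by
    rw [one_div, one_div, inv_pow]
  generalize hYY : (2 : ℝ) ^ b = Y at hY
  have hY0 : 0 < Y := by linarith
  have hY1 : 1 ≤ Y := by linarith
  have hEc : Fintype.card (Es k Empty) + 1 ≤ L ^ 4 := by
    rw [Fintype.card_prod, Fintype.card_sum, Fintype.card_fin, Fintype.card_empty]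
    calc k * (k + 0) + 1 ≤ 40 * (k + 1) ^ 2 + 1 := by nlinarith
      _ ≤ L := t2
      _ = L ^ 1 := (pow_one L).symm
      _ ≤ L ^ 4 := Nat.pow_le_pow_right (by omega) (by omega)
  have hEcR : ((Fintype.card (Es k Empty) + 1 : ℕ) : ℝ) ≤ Y ^ 4 := by
    rw [← hYY, ← hYL]
    exact_mod_cast hEc
  have hcount : ((m : ℝ) * (m + 1) + cst (L ^ c1) 13) ≤ Y ^ (13 * (c1 + 1) + 1) := by
    have h1 : m * (m + 1) + cst (L ^ c1) 13 ≤ L ^ (13 * (c1 + 1) + 1) := by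
      have h2 := cst_le (hLp c1) 13
      have h3 : (2 * L ^ c1) ^ 13 ≤ L ^ (13 * (c1 + 1)) := by
        calc (2 * L ^ c1) ^ 13 ≤ (L * L ^ c1) ^ 13 :=
              Nat.pow_le_pow_left (Nat.mul_le_mul_right _ (by omega)) _
          _ = L ^ (13 * (c1 + 1)) := by
              rw [← pow_succ', ← pow_mul]
              congr 1
              ring
      have h4 : m * (m + 1) ≤ L ^ (13 * (c1 + 1)) := by
        have h5 : m + 1 ≤ L ^ (c1 + 1) := by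
          have := hLp c1
          calc m + 1 ≤ L ^ c1 * 2 := by omega
            _ ≤ L ^ c1 * L := Nat.mul_le_mul_left _ (by omega)
            _ = _ := (pow_succ _ _).symm
        calc m * (m + 1) ≤ L ^ c1 * L ^ (c1 + 1) := Nat.mul_le_mul hm h5
          _ = L ^ (c1 + (c1 + 1)) := (pow_add _ _ _).symm
          _ ≤ _ := Nat.pow_le_pow_right (by omega) (by omega)
      calc m * (m + 1) + cst (L ^ c1) 13 ≤ L ^ (13 * (c1 + 1)) * 2 := by omega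
        _ ≤ L ^ (13 * (c1 + 1)) * L := Nat.mul_le_mul_left _ (by omega)
        _ = _ := (pow_succ _ _).symm
    rw [← hYY, ← hYL]
    exact_mod_cast h1
  have hX : (((D : ℝ) + 2) * m + (13 : ℕ) * ((L ^ c1 : ℕ) : ℝ) ^ 13) ≤
      ((2 : ℝ) ^ b) ^ (13 * c1 + 1) := by
    have h1 : (D + 2) * m + 13 * (L ^ c1) ^ 13 ≤ L ^ (13 * c1 + 1) := by
      have h2 : (L ^ c1) ^ 13 = L ^ (13 * c1) := by
        rw [← pow_mul]
        congr 1
        ring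
      have h3 : m ≤ L ^ (13 * c1) := hm.trans (Nat.pow_le_pow_right (by omega) (by omega))
      rw [h2]
      calc (D + 2) * m + 13 * L ^ (13 * c1) ≤ (D + 2) * L ^ (13 * c1) + 13 * L ^ (13 * c1) := by
            have := Nat.mul_le_mul_left (D + 2) h3
            omega
        _ = (D + 15) * L ^ (13 * c1) := by ring
        _ ≤ L * L ^ (13 * c1) := Nat.mul_le_mul_right _ (by omega)
        _ = L ^ (13 * c1 + 1) := (pow_succ' _ _).symm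
    rw [← hYL]
    exact_mod_cast h1
  have hz : ((L ^ a : ℕ) : ℝ) * ((1 / 2) ^ b) ^ k = (Y ^ (k - a))⁻¹ := by
    rw [hp2]
    push_cast
    rw [hYL, hYY, one_div, inv_pow]
    have : Y ^ k = Y ^ a * Y ^ (k - a) := by
      rw [← pow_add]
      congr 1
      omega
    rw [this, mul_inv, ← mul_assoc, mul_inv_cancel₀ (by positivity), one_mul]
  have hz6 : ((L ^ a : ℕ) : ℝ) * ((1 / 2) ^ b) ^ k ≤ (Y ^ 6)⁻¹ := by
    rw [hz]
    apply inv_anti₀ (by positivity)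
    exact pow_le_pow_right₀ hY1 (by omega)
  have hb0 := est_bad hY (z := ((L ^ a : ℕ) : ℝ) * ((1 / 2) ^ b) ^ k) (g := (0 : ℝ))
    (by positivity) hz6 (by positivity) (k := k) (by rw [← hYY, ← hYL]; exact_mod_cast t7) rfl
  obtain ⟨l, hl⟩ : ∃ l : ℝ, l = ((2 : ℝ) ^ C0 * b)⁻¹ := ⟨_, rfl⟩
  have hbR : (0 : ℝ) < b := by
    have : 0 < b := by omega
    exact_mod_cast this
  have hl0 : 0 < l := by
    rw [hl]
    positivity
  have hl1 : l ≤ 1 / 2 := by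
    rw [hl, one_div]
    apply inv_anti₀ (by norm_num)
    have h1 : (1 : ℝ) ≤ 2 ^ C0 := one_le_pow₀ (by norm_num)
    have h2 : (2 : ℝ) ≤ b := by exact_mod_cast hb1
    nlinarith
  have herr := est_err2 (b := b) (r := r) (w := w) (s1 := s1) (C0 := C0) (u := 13 * c1 + 1)
    (m := a * (r + 1)) (l := l) hs1a hs1b (by omega) hC0 hl hX hw
  have hqi := q_inv (b := b) (C0 := C0) (D := D + 15) (by omega) hQ hl
  rw [hYY] at herr hqi
  have hpow : ((2 : ℝ) ^ (s1 - 1)) ^ (4 * r ^ 2) ≤ Y := by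
    rw [← pow_mul, ← hYY]
    exact pow_le_pow_right₀ (by norm_num) hs1c
  have hmu := mu_le2 (Y := Y) (by linarith) (N := L ^ a) (r := r) (dd := s1 - 1) (a := a)
    (E := Es k Empty) (q := (1 / 2 : ℝ) ^ b * l ^ (D + 15)) (err := _) hEcR
    (by positivity) hqi (by push_cast; rw [hYL, hYY]) hpow herr (by positivity)
  have hmain := est_main2 hY (C := ((m : ℝ) * (m + 1) + cst (L ^ c1) 13))
    (u := 13 * (c1 + 1) + 1) (v := 24 * r ^ 2 + 2) (m := a * (r + 1)) hcount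
    (μ := _) ?_ hmu ?_
  · have h1 := core1b e F hg hF hG hred (hLp a) (t := b) (by omega) (l := l) (κ := 4 * l)
      (rw_hf hl0.le hl1) hl0 hr2 (by omega) hm (s1 := s1) (by rw [hs1]; exact Nat.le_add_left _ _)
      ?_ hM hK2 hthr
    · omega
    · have e4 : D + 2 + 13 = D + 15 := rfl
      rw [e4, Fintype.card_empty]
      push_cast at hb0 hmain ⊢
      linarith
  · unfold mu
    positivity
  · -- the exponent
    have h1 : a * (r + 1) = 130000 * (c * c) + 2500 * c := by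
      rw [hr, ha]
      ring
    have h2 : 13 * c1 = 65000 * (c * c) + 104 * c + 13 := by
      rw [hc1, ha]
      ring
    have h4 : 24 * r ^ 2 = 64896 * (c * c) := by
      rw [hr]
      ring
    have h5 : 13 * (c1 + 1) = 13 * c1 + 13 := by ring
    rw [h1, h4, h5, h2]
    have h6 : 0 ≤ c * c := Nat.zero_le _
    omega

theorem split6 {a1 a2 a3 a4 a5 a6 b : ℕ} (h : a1 + a2 + a3 + a4 + a5 + a6 ≤ b) :
    a1 ≤ b ∧ a2 ≤ b ∧ a3 ≤ b ∧ a4 ≤ b ∧ a5 ≤ b ∧ a6 ≤ b := by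
  refine ⟨?_, ?_, ?_, ?_, ?_, ?_⟩ <;> omega

/-- **The first link** -/
theorem not_slice_first_up (c0 k : ℕ) (hk : 90000 * (c0 + 1) ≤ k) (D : ℕ → ℕ)
    (hD : ∀ᶠ n : ℕ in atTop, (90000 * (c0 + 1) : ℕ) * (D n : ℝ) *
      Real.log (Real.log n) ≤ Real.log n) :
    ¬ SliceAC D c0 k (GAMMA 1 2) (GAMMA 1 1) := by
  rintro ⟨e1, F, hF, hred⟩
  obtain ⟨c, hc⟩ : ∃ c, c = c0 + 2 := ⟨_, rfl⟩
  obtain ⟨r, hr⟩ : ∃ r, r = 52 * c := ⟨_, rfl⟩
  obtain ⟨a, ha⟩ : ∃ a, a = 2500 * c := ⟨_, rfl⟩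
  have hk2 : r + a + 6 ≤ k := by omega
  obtain ⟨c1, hc1⟩ : ∃ c1, c1 = c * (2 * a + 8) + 1 := ⟨_, rfl⟩
  obtain ⟨w, hw⟩ : ∃ w, w = (13 * c1 + 1) + a * (r + 1) := ⟨_, rfl⟩
  obtain ⟨C0, hC0⟩ : ∃ C0, C0 = 4 * r ^ 2 * w + 4 := ⟨_, rfl⟩
  obtain ⟨T, hT⟩ : ∃ T, T = e1 + (40 * (k + 1) ^ 2 + 1) + 8 + 2 ^ k + 2 ^ e1 +
    (e1 + 2) * (2 * (e1 + 1) ^ 2 + 1) ^ (e1 + 1) := ⟨_, rfl⟩
  have hA : 8 * ((2 * a + 8 : ℕ) : ℝ) ≤ ((90000 * (c0 + 1) : ℕ) : ℝ) := by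
    have h1 : 8 * (2 * a + 8) ≤ 90000 * (c0 + 1) := by omega
    exact_mod_cast h1
  obtain ⟨b, hb1, hb3⟩ : ∃ b, T ≤ b ∧ ∀ n : ℕ, 2 ^ b ≤ n →
      n ≤ 2 ^ (b * (2 * a + 8)) → (2 ^ C0 * b) ^ (D n + 15) ≤ 2 ^ b :=
    ((eventually_ge_atTop T).and
      (depth_ok (A := 2 * a + 8) (by omega) hA hD)).exists
  have hbL' : b ≤ 2 ^ b := Nat.lt_two_pow_self.le
  rw [hT] at hb1
  obtain ⟨u1, u2, u3, u7, u8, u9⟩ := split6 hb1
  obtain ⟨n, hn⟩ : ∃ n, n = Nat.card (N2 k ((2 ^ b) ^ a)) := ⟨_, rfl⟩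
  let e : N2 k ((2 ^ b) ^ a) ≃ Fin n := (Finite.equivFinOfCardEq hn.symm)
  obtain ⟨h1, h2, m, h3, g, h5, h6⟩ := hF n
  have h4 : ∀ eb, GAMMA 1 2 _ (src2F e eb) := fun eb =>
    isoInv_gamma 1 2 _ _ _ _ e (src2F_iso e eb) src2_gamma
  have hnlo : 2 ^ b ≤ n := by
    rw [hn]
    refine le_trans ?_ (card_N2_ge (by omega))
    calc 2 ^ b = (2 ^ b) ^ 1 := (pow_one _).symm
      _ ≤ (2 ^ b) ^ a := Nat.pow_le_pow_right (by omega) (by omega)
  have hnhi : n ≤ 2 ^ (b * (2 * a + 8)) := by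
    have h7 := count_nodes2 (a := a) (k := k) (b := b) rfl (u2.trans hbL')
    rw [← hn, ← pow_mul] at h7
    omega
  exact big1b (D := D n) (L := 2 ^ b) (n := n) hc hr ha hk2 hc1 hw hC0 rfl rfl
    (u1.trans hbL') (u2.trans hbL') (u3.trans hbL') (u7.trans hbL')
    (u8.trans hbL') (u9.trans hbL') (by omega) (hb3 n hnlo hnhi) e (F n) h1 h2 h3 h5 h6
    (fun eb => (hred n (src2F e eb) (h4 eb)).1) (fun eb => (hred n (src2F e eb) (h4 eb)).2)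

end Pool.Agent.WSatUp
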