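import Pool.Agent.WSatUp.Def
import Pool.Agent.WSatAC0.Fwd

/-! The reductions along the chain, for circuits with shared gates. -/

namespace Pool.Agent.WSatUp

open Pool.Agent.WSatChain Pool.Agent.WSatAC0

/-- codes of the input bits -/
def bitCode {n : ℕ} : Bit n → (Fin 5 × Fin n) ⊕ (Fin n × Fin n)
  | .isVar g => Sum.inl (0, g)
  | .isAnd g => Sum.inl (1, g)
  | .isOr g => Sum.inl (2, g)
  | .isNot g => Sum.inl (3, g)
  | .isOut g => Sum.inl (4, g)
  | .wire g h => Sum.inr (g, h)

theorem bitCode_inj {n : ℕ} : Function.Injective (bitCode (n := n)) := by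
  intro a b h
  cases a <;> cases b <;> simp only [bitCode, Sum.inl.injEq, Sum.inr.injEq, Prod.mk.injEq,
    reduceCtorEq, Fin.isValue, Fin.reduceEq, false_and, true_and] at h
  all_goals first
    | rw [h]
    | rw [h.1, h.2]

instance {n : ℕ} : Finite (Bit n) := Finite.of_injective _ bitCode_inj

theorem card_bit (n : ℕ) : Nat.card (Option (Bit n)) ≤ 6 * (n + 1) ^ 2 := by
  have h1 : Nat.card (Bit n) ≤ Nat.card ((Fin 5 × Fin n) ⊕ (Fin n × Fin n)) :=
    Nat.card_le_card_of_injective _ bitCode_inj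
  have h2 : Nat.card ((Fin 5 × Fin n) ⊕ (Fin n × Fin n)) = 5 * n + n * n := by
    rw [Nat.card_eq_fintype_card, Fintype.card_sum, Fintype.card_prod, Fintype.card_prod,
      Fintype.card_fin, Fintype.card_fin]
  rw [Finite.card_option]
  nlinarith

/-- constants and input bits form a circuit of depth zero -/
theorem ckt_bits (n : ℕ) : ∃ m ≤ 6 * (n + 1) ^ 2, ∃ g : Fin m → (Bit n → Bool) → Bool,
    IsCkt 0 g ∧ (∃ i, g i = fun _ => true) ∧ ∀ v, ∃ i, g i = fun x => x v := by
  obtain ⟨m, hm⟩ : ∃ m, m = Nat.card (Option (Bit n)) := ⟨_, rfl⟩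
  let e : Option (Bit n) ≃ Fin m := Finite.equivFinOfCardEq hm.symm
  let G : Option (Bit n) → (Bit n → Bool) → Bool := fun o =>
    match o with
    | none => fun _ => true
    | some v => fun x => x v
  refine ⟨m, hm ▸ card_bit n, fun i => G (e.symm i), ⟨fun _ => 0, ?_⟩, ⟨e none, ?_⟩,
    fun v => ⟨e (some v), ?_⟩⟩
  · intro i
    refine ⟨le_refl _, ?_⟩
    cases h : e.symm i with
    | none => exact Or.inl ⟨true, fun x => by simp only [h, G]⟩
    | some v => exact Or.inr (Or.inl ⟨v, fun x => by simp only [h, G]⟩)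
  · simp only [e.symm_apply_apply, G]
  · simp only [e.symm_apply_apply, G]

theorem sliceAC_of_sub {A B : CClass} (h : ∀ U C, A U C → B U C) (hB : IsoInv B) (k : ℕ) :
    SliceAC (fun _ => 0) 2 k A B := by
  refine ⟨k + 6, fun n => idRed k n, ?_, ?_⟩
  · intro n
    refine ⟨?_, Nat.le_add_right _ _, ?_⟩
    · show n ≤ (k + 6) * (n + 1) ^ 2
      nlinarith [Nat.zero_le (k * (n + 1) ^ 2)]
    · obtain ⟨m, hm, g, h1, h2, h3⟩ := ckt_bits n
      refine ⟨m, hm.trans (Nat.mul_le_mul_right _ (by omega)), g, h1, ?_⟩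
      exact {
        dom := fun p => h2
        isVar := fun p => h3 _
        isAnd := fun p => h3 _
        isOr := fun p => h3 _
        isNot := fun p => h3 _
        isOut := fun p => h3 _
        wire := fun p q => h3 _
        par := fun j => h2 }
  · intro n C hC
    refine ⟨hB _ _ _ _ _ (idRed_iso k n C) (h _ C hC), ?_⟩
    rw [idRed_param]
    exact ⟨iso_wsat (idRed_iso k n C), iso_wsat (idRed_iso k n C).symm⟩

theorem smallDepth_const (D0 : ℕ) : SmallDepth (fun _ => D0) := by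
  intro K
  have h1 : Filter.Tendsto (fun n : ℕ => Real.log (n : ℝ)) Filter.atTop Filter.atTop :=
    Real.tendsto_log_atTop.comp tendsto_natCast_atTop_atTop
  have h2 := Real.isLittleO_log_id_atTop.bound (c := (|K| * D0 + 1)⁻¹) (by positivity)
  filter_upwards [h1.eventually h2, h1.eventually_ge_atTop 1] with n h3 h4
  have h5 : 0 ≤ Real.log (Real.log n) := Real.log_nonneg h4
  simp only [id, Real.norm_eq_abs] at h3
  have h50 : 0 ≤ Real.log n := by linarith
  rw [abs_of_nonneg h5, abs_of_nonneg h50] at h3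
  have h6 : (0 : ℝ) < |K| * D0 + 1 := by positivity
  have h7 : (|K| * D0 + 1) * Real.log (Real.log n) ≤ Real.log n := by
    calc (|K| * D0 + 1) * Real.log (Real.log n) ≤
          (|K| * D0 + 1) * ((|K| * D0 + 1)⁻¹ * Real.log n) := mul_le_mul_of_nonneg_left h3 h6.le
      _ = Real.log n := by field_simp
  refine le_trans ?_ h7
  apply mul_le_mul_of_nonneg_right _ h5
  have h8 : K * (D0 : ℝ) ≤ |K| * D0 := mul_le_mul_of_nonneg_right (le_abs_self K) (by positivity)
  linarith

theorem reducesAC_of_sub {A B : CClass} (h : ∀ U C, A U C → B U C) (hB : IsoInv B) :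
    ReducesAC A B :=
  ⟨2, fun k => ⟨fun _ => 0, smallDepth_const 0, sliceAC_of_sub h hB k⟩⟩

theorem sliceAC_sub_left {D : ℕ → ℕ} {c k : ℕ} {A A' B : CClass} (h : ∀ U C, A' U C → A U C)
    (hr : SliceAC D c k A B) : SliceAC D c k A' B := by
  obtain ⟨e, F, h1, h2⟩ := hr
  exact ⟨e, F, h1, fun n C hC => h2 n C (h _ C hC)⟩

end Pool.Agent.WSatUp
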