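import Pool.Agent.WSatUp.Stage

/-! Formulas of small depth on top of circuits; the first stage. -/

namespace Pool.Agent.WSatUp

open Finset Pool.Agent.ParityAC Pool.Agent.WSatAC0

section top

variable {O E : Type} [Fintype O] [DecidableEq O] [Fintype E] [DecidableEq E]
  (ends : E → O × O) {N : ℕ}

theorem good_gen {w : Bool → ℝ} (hw : ∀ a, 0 ≤ w a) {P : ((VB E N → Bool) → Bool) → Prop}
    {G0 : (O → Fin N) → (VB E N → Bool) → Prop} {S D r : ℕ}
    (hP : ∀ f, P f → ∀ ω x, G0 ω x → Gd ends r f ω x)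
    (hS : 1 ≤ S) {μ : ℝ} (hμ0 : 0 ≤ μ)
    (hμ : ∀ g : (VB E N → Bool) → Bool, ACG P S D g → P2 (un N) w (Md ends r g) ≤ μ) :
    ∀ D' ≤ D, ∀ f : (VB E N → Bool) → Bool, ACG P S D' f →
      P2 (un N) w (fun ω x => G0 ω x ∧ ¬ Gd ends r f ω x) ≤ cst S D' * μ := by
  classical
  have hu := un_nonneg N
  have hzero : ∀ f : (VB E N → Bool) → Bool, (∀ ω x, G0 ω x → Gd ends r f ω x) →
      P2 (un N) w (fun ω x => G0 ω x ∧ ¬ Gd ends r f ω x) = 0 := by
    intro f hf
    have h1 : ∀ (ω : O → Fin N) (x : VB E N → Bool), ¬ (G0 ω x ∧ ¬ Gd ends r f ω x) :=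
      fun ω x h => h.2 (hf ω x h.1)
    unfold P2
    simp only [PP_eq, h1, if_false]
    unfold EE
    simp
  intro D'
  induction D' with
  | zero =>
    rintro _ f hf
    rw [hzero f (hP f hf)]
    simp [cst]
  | succ D' ih =>
    rintro hD f ⟨n, hn, g, hg, hf⟩
    have ih' := ih (by omega)
    -- the prefixes
    obtain ⟨p, hp0, hpD, hpstep, hpn⟩ : ∃ p : ℕ → (VB E N → Bool) → Bool,
        (∀ ω x, Gd ends r (p 0) ω x) ∧ (∀ j ≤ n, ACG P S (D' + 1) (p j)) ∧
        (∀ (j : ℕ) (hj : j < n) (ω : O → Fin N) (x : VB E N → Bool),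
          Dp ends (p (j + 1)) x ω ⊆ Dp ends (p j) x ω ∪ Dp ends (g ⟨j, hj⟩) x ω) ∧
        p n = f := by
      rcases hf with hf | hf
      · refine ⟨fun j x => decide (∀ i : Fin n, i.1 < j → g i x = true), ?_, ?_, ?_, ?_⟩
        · exact gd_const ends (c := true) fun x => by simp
        · intro j hj
          refine ⟨j, hj.trans hn, fun i => g ⟨i.1, by omega⟩, fun i => hg _, Or.inl ?_⟩
          intro x
          rw [decide_eq_true_eq]
          constructor
          · intro h i
            exact h ⟨i.1, by omega⟩ i.2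
          · intro h i hi
            exact h ⟨i.1, hi⟩
        · intro j hj ω x e he
          rw [Finset.mem_union, mem_Dp, mem_Dp]
          refine relv_and ?_ ((mem_Dp ends).1 he)
          intro y
          simp only
          rw [Bool.eq_iff_iff, Bool.and_eq_true, decide_eq_true_eq, decide_eq_true_eq]
          constructor
          · intro h
            exact ⟨fun i hi => h i (by omega), h ⟨j, hj⟩ (by simp)⟩
          · rintro ⟨h1, h2⟩ i hi
            rcases Nat.lt_succ_iff_lt_or_eq.1 hi with h3 | h3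
            · exact h1 i h3
            · have : i = ⟨j, hj⟩ := Fin.ext h3
              rw [this]
              exact h2
        · funext x
          rw [Bool.eq_iff_iff, decide_eq_true_eq, hf]
          exact ⟨fun h i => h i i.2, fun h i _ => h i⟩
      · refine ⟨fun j x => decide (∃ i : Fin n, i.1 < j ∧ g i x = true), ?_, ?_, ?_, ?_⟩
        · exact gd_const ends (c := false) fun x => by simp
        · intro j hj
          refine ⟨j, hj.trans hn, fun i => g ⟨i.1, by omega⟩, fun i => hg _, Or.inr ?_⟩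
          intro x
          rw [decide_eq_true_eq]
          constructor
          · rintro ⟨i, hi, h⟩
            exact ⟨⟨i.1, hi⟩, h⟩
          · rintro ⟨i, h⟩
            exact ⟨⟨i.1, by omega⟩, i.2, h⟩
        · intro j hj ω x e he
          rw [Finset.mem_union, mem_Dp, mem_Dp]
          refine relv_or ?_ ((mem_Dp ends).1 he)
          intro y
          simp only
          rw [Bool.eq_iff_iff, Bool.or_eq_true, decide_eq_true_eq, decide_eq_true_eq]
          constructor
          · rintro ⟨i, hi, h⟩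
            rcases Nat.lt_succ_iff_lt_or_eq.1 hi with h3 | h3
            · exact Or.inl ⟨i, h3, h⟩
            · have : i = ⟨j, hj⟩ := Fin.ext h3
              rw [← this]
              exact Or.inr h
          · rintro (⟨i, hi, h⟩ | h)
            · exact ⟨i, by omega, h⟩
            · exact ⟨⟨j, hj⟩, by simp, h⟩
        · funext x
          rw [Bool.eq_iff_iff, decide_eq_true_eq, hf]
          constructor
          · rintro ⟨i, _, h⟩
            exact ⟨i, h⟩
          · rintro ⟨i, h⟩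
            exact ⟨i, i.2, h⟩
    have key : ∀ j ≤ n, P2 (un N) w (fun ω x => G0 ω x ∧ ¬ Gd ends r (p j) ω x) ≤
        j * ((cst S D' + 1) * μ) := by
      intro j
      induction j with
      | zero =>
        intro _
        rw [hzero _ fun ω x _ => hp0 ω x]
        simp
      | succ j ihj =>
        intro hj
        have h1 := ihj (by omega)
        have h2 := ih' (g ⟨j, by omega⟩) (hg _)
        have h3 := hμ (p (j + 1)) ((hpD (j + 1) hj).raise_le hS hD)
        have h4 : P2 (un N) w (fun ω x => G0 ω x ∧ ¬ Gd ends r (p (j + 1)) ω x) ≤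
            P2 (un N) w (fun ω x => ((G0 ω x ∧ ¬ Gd ends r (p j) ω x) ∨
              (G0 ω x ∧ ¬ Gd ends r (g ⟨j, by omega⟩) ω x)) ∨ Md ends r (p (j + 1)) ω x) := by
          apply P2_mono hu hw
          rintro ω x ⟨h0, h⟩
          by_contra hcon
          push Not at hcon
          obtain ⟨⟨h5, h6⟩, h7⟩ := hcon
          exact h (gd_step ends (h5 h0) (h6 h0) (hpstep j (by omega) ω x) h7)
        refine h4.trans ?_
        refine (P2_or hu hw _ _).trans ?_
        have h5 := P2_or hu hw (fun ω x => G0 ω x ∧ ¬ Gd ends r (p j) ω x)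
          (fun ω x => G0 ω x ∧ ¬ Gd ends r (g ⟨j, by omega⟩) ω x)
        push_cast
        linarith
    have h1 := key n (le_refl _)
    rw [hpn] at h1
    refine h1.trans ?_
    simp only [cst]
    push_cast
    have h2 : (n : ℝ) ≤ S := by exact_mod_cast hn
    have h3 : 0 ≤ ((cst S D' : ℝ) + 1) * μ := by positivity
    calc (n : ℝ) * (((cst S D' : ℝ) + 1) * μ) ≤ S * (((cst S D' : ℝ) + 1) * μ) :=
          mul_le_mul_of_nonneg_right h2 h3
      _ = _ := by ring

omit [Fintype O] in
theorem gd_cl {m r : ℕ} {g : Fin m → (VB E N → Bool) → Bool} {f : (VB E N → Bool) → Bool}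
    (hf : Cl g f) {ω : O → Fin N} {x : VB E N → Bool} (hg : ∀ i, Gd ends r (g i) ω x) :
    Gd ends r f ω x := by
  rcases hf with ⟨c, hc⟩ | ⟨i, hi⟩ | ⟨i, hi⟩
  · exact gd_const ends hc ω x
  · have : f = g i := funext hi
    rw [this]
    exact hg i
  · have h1 := hg i
    unfold Gd at h1 ⊢
    rw [dp_not ends hi]
    exact h1

/-- **few slots** for all gates of a circuit and for a formula on top of it -/
theorem stage_one2 (hinj : Function.Injective ends) (hN : 1 ≤ N) {t : ℕ} (ht : 0 < t) {l κ : ℝ}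
    (H : RW hf l κ) (hl : 0 < l) {r s m D S D' : ℕ} (hr : 2 ≤ r) (hs : 1 ≤ s) (hS : 1 ≤ S)
    (hmS : m ≤ S) (hD' : 1 ≤ D') {g : Fin m → (VB E N → Bool) → Bool} {lev : Fin m → ℕ}
    (hC : CK (Sm 1) g lev) (hD : ∀ i, lev i ≤ D)
    (Bad : (O → Fin N) → (VB E N → Bool) → Prop) {β : ℝ}
    (hBad : P2 (un N) (lw ((1 / 2) ^ t)) Bad ≤ β)
    {f : (VB E N → Bool) → Bool} (hff : ACG (Cl g) S D' f)
    (hnum : β + (m * (m + 1) + cst S D') *
      mu E N r (s - 1) ((1 / 2) ^ t * l ^ (D + 2 + D'))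
        (((D + 2) * m + D' * S ^ D') * (4 * s * κ) ^ s) < 1) :
    ∃ (ω : O → Fin N) (x : VB E N → Bool), ¬ Bad ω x ∧ (∀ i, Gd ends r (g i) ω x) ∧
      Gd ends r f ω x := by
  classical
  have hu := un_nonneg N
  have hκ := H.κ0
  have hp0 : (0 : ℝ) < (1 / 2) ^ t := by positivity
  have hp1 : (1 / 2 : ℝ) ^ t ≤ 1 := pow_le_one₀ (by norm_num) (by norm_num)
  have hw := fun a => lw_nonneg hp0.le hp1 a
  have hl0 : 0 < l ^ (D + 2 + D') := pow_pos hl _
  have hl1 : l ^ (D + 2 + D') ≤ 1 := pow_le_one₀ hl.le H.l1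
  set err : ℝ := ((D + 2) * m + D' * S ^ D') * (4 * s * κ) ^ s with herr
  have herr0 : 0 ≤ err := by
    rw [herr]
    positivity
  set μ := mu E N r (s - 1) ((1 / 2) ^ t * l ^ (D + 2 + D')) err with hμdef
  have hμ0 : 0 ≤ μ := by
    rw [hμdef]
    unfold mu
    positivity
  -- the circuit on the unbiased bits
  have hC' : CK (fun h : (VB E N × Fin t → Bool) → Bool => ∃ f : (VB E N → Bool) → Bool,
      Sm 1 f ∧ h = fun b => f (andB b)) (fun i b => g i (andB b)) lev :=
    hC.mapX andB fun f hf => ⟨f, hf, rfl⟩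
  have hbase : ∀ h : (VB E N × Fin t → Bool) → Bool, (∃ f : (VB E N → Bool) → Bool,
      Sm 1 f ∧ h = fun b => f (andB b)) → PP (wo hf l) (fun ρ : VB E N × Fin t → Option Bool =>
        ¬ Sm (s - 1) (fun x => h (ov ρ x))) ≤ (4 * s * κ) ^ s := by
    rintro h ⟨f, hf1, rfl⟩
    exact base_round H hs hf1
  have hμ : ∀ q : (VB E N → Bool) → Bool, ACG (Cl g) S D' q →
      P2 (un N) (lw ((1 / 2) ^ t)) (Md ends r q) ≤ μ := by
    intro q hq
    refine medium_gen ends hinj hN hw (by positivity)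
      (mul_le_one₀ hp1 hl0.le hl1) herr0 q fun F => ?_
    refine dep_prob2 ends hN ht hl0.le hl1 q ?_ F
    have h1 : ACG (Cl fun (i : Fin m) (b : VB E N × Fin t → Bool) => g i (andB b)) S D'
        (fun b => q (andB b)) := by
      refine ACG.mapX andB ?_ hq
      intro h hh
      rcases hh with ⟨c, hc⟩ | ⟨i, hi⟩ | ⟨i, hi⟩
      · exact Or.inl ⟨c, fun b => hc _⟩
      · exact Or.inr (Or.inl ⟨i, fun b => hi _⟩)
      · exact Or.inr (Or.inr ⟨i, fun b => hi _⟩)
    have h2 := rounds_top H hC' hs hbase hD hS h1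
    rw [Fintype.card_fin] at h2
    exact h2
  have h1 := dag_good ends hw hr hC (μ := μ) fun q hq =>
    hμ q ((ACG.monoS hmS hq).raise_le hS hD')
  have h2 := good_gen ends hw (P := Cl g) (G0 := fun ω x => ∀ i, Gd ends r (g i) ω x) (r := r)
    (fun f hf ω x hg => gd_cl ends hf hg) hS hμ0 hμ D' (le_refl _) f hff
  have h3 : P2 (un N) (lw ((1 / 2) ^ t)) (fun ω x => Bad ω x ∨ ((¬ ∀ i, Gd ends r (g i) ω x) ∨
      ((∀ i, Gd ends r (g i) ω x) ∧ ¬ Gd ends r f ω x))) < 1 := by
    refine lt_of_le_of_lt (P2_or hu hw _ _) ?_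
    have h4 := P2_or hu hw (fun (ω : O → Fin N) (x : VB E N → Bool) =>
      ¬ ∀ i, Gd ends r (g i) ω x) (fun ω x => (∀ i, Gd ends r (g i) ω x) ∧ ¬ Gd ends r f ω x)
    have h5 : (m : ℝ) * ((m + 1) * μ) + cst S D' * μ = (m * (m + 1) + cst S D') * μ := by ring
    linarith
  obtain ⟨ω, x, h⟩ := P2_lt_one hu (un_sum hN) (lw_sum _) h3
  push Not at h
  exact ⟨ω, x, h.1, h.2.1, h.2.2 h.2.1⟩

end top

end Pool.Agent.WSatUp
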