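import Pool.Agent.WSatUp.Def
import Pool.Agent.WSatUp.Stage2
import Pool.Agent.WSatAC0.Core

/-! The contradiction for suitable numbers, for circuits with shared gates. -/

namespace Pool.Agent.WSatUp

open Finset Pool.Agent.ParityAC Pool.Agent.WSatChain Pool.Agent.WSatCount Pool.Agent.WSatAC0

/-- a circuit on bits that are constants or literals -/
theorem ck_of_isCkt {V W : Type} {D m : ℕ} {g : Fin m → (V → Bool) → Bool} (h : IsCkt D g)
    {σ : (W → Bool) → (V → Bool)} (hσ : ∀ v, Sm 1 (fun x => σ x v)) :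
    ∃ lev : Fin m → ℕ, (∀ i, lev i ≤ D) ∧ CK (Sm 1) (fun i x => g i (σ x)) lev := by
  obtain ⟨lev, hlev⟩ := h
  refine ⟨lev, fun i => (hlev i).1, ?_⟩
  intro i
  rcases (hlev i).2 with ⟨c, h⟩ | ⟨v, h⟩ | ⟨j, h1, h2⟩ | ⟨T, h1, h2 | h2⟩
  · exact Or.inl (Sm.const 1 c fun x => h _)
  · left
    have e : (fun x => g i (σ x)) = fun x => σ x v := funext fun x => h _
    show Sm 1 (fun x => g i (σ x))
    rw [e]
    exact hσ v
  · exact Or.inr (Or.inl ⟨j, h1, fun x => h2 _⟩)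
  · exact Or.inr (Or.inr ⟨T, h1, Or.inl fun x => h2 _⟩)
  · exact Or.inr (Or.inr ⟨T, h1, Or.inr fun x => h2 _⟩)

section core

variable {k N A1 : ℕ} {B : Type} [Fintype B] [DecidableEq B] {s d : ℕ}

/-- **the contradiction** -/
theorem core_rest {n : ℕ} (e : UN k N A1 B s ≃ Fin n) (F : Red (Bit n)) {S r : ℕ}
    (hG : ∀ X : Dat k N A1 B, GAMMA (s + 1) d _ (F.apply (bits (srcF e X))))
    (hred : ∀ X : Dat k N A1 B, (srcF e X).WSat (k + 1) ↔
      (F.apply (bits (srcF e X))).WSat (F.param (bits (srcF e X))))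
    {ω : Os k (Gc B s A1) → Fin N} {x : VB (Es k (Gc B s A1)) N → Bool} (hbE : ¬ BadE ω x)
    (hbC : ¬ BadC ω x) (hgd : (F.comp (srcB e)).All (fun f => Gd endsK r f ω x))
    (hS : 1 ≤ S) {S' : ℕ} (hM : F.M ≤ S) (hS' : S + F.K ≤ S')
    (hS'' : (F.M + 1) ^ (F.K + 1) ≤ S')
    {q : ℕ} (hq : cL d (r ^ 2) + (s + 1) * (6 * r ^ 2) + 3 * r ^ 2 + 2 * r ^ 2 = q) (hqk : q < k)
    {s2 : ℕ} (hs2 : 1 ≤ s2) {l2 : ℝ} (hl20 : 0 ≤ l2) (hl21 : l2 ≤ 1 / 2)
    (hnum2 : (S' : ℝ) ^ (s + 1) * (2 * q * 2 ^ k * (2 ^ (k + 1) * l2)) ^ s2 +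
      Fintype.card (VV B s × ZMod 2) * (1 - l2) ^ A1 < 1)
    {σ : ℕ} (hσ : 1 ≤ σ) (hSσ : S' ^ s < 2 ^ σ)
    (hbnd : bnd σ (s + 1) (s2 - 1) ≤ Fintype.card B ^ (s + 1)) : False := by
  classical
  let FX : Red (VB (Es k (Gc B s A1)) N) := F.comp (srcB e)
  let τ : (Fin k × Gc B s A1 → Bool) → (VB (Es k (Gc B s A1)) N → Bool) :=
    fun v => inst endsK x ω (yv v)
  let FV : Red (Fin k × Gc B s A1) := FX.comp τ
  have hFV : FV.All (J (r ^ 2)) := by
    have h1 : FX.All (fun f => J (r ^ 2) (fun v => f (τ v))) :=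
      Red.comp_all (τ := fun x => x) (fun f hf => junta_of_good hf) hgd
    exact Red.comp_all (fun f hf => hf) h1
  have hGV : ∀ v, GAMMA (s + 1) d _ (FV.apply v) := fun v => hG (dat (τ v))
  have h1 := jtop hFV hGV hS hM hS' hS''
  rw [hq] at h1
  obtain ⟨w, o, ho, h2⟩ := stage_two _ h1 hqk hs2 hl20 hl21 hnum2
  have h3 := h2 (VV B s) Prod.fst (fun b c _ => decide ((if c then (1 : ZMod 2) else 0) ≠ b.2)) ?_
  · have h4 : (fun z : VV B s → Bool => (fun v => decide ((FV.apply v).WSat (FV.param v)))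
        (fun v => if v.2.2 = w v.2.1 then
          (fun (b : VV B s × ZMod 2) (c : Bool) (_ : Fin k) =>
            decide ((if c then (1 : ZMod 2) else 0) ≠ b.2)) v.2.1 (z (Prod.fst v.2.1)) v.1
          else o v.2 v.1)) = fun z => decide (bp (bz z) (s + 1) [] = 0) := by
      funext z
      simp only
      rw [decide_eq_decide]
      generalize hv : (fun v : Fin k × Gc B s A1 => if v.2.2 = w v.2.1 then
          decide ((if z v.2.1.1 then (1 : ZMod 2) else 0) ≠ v.2.1.2) else o v.2 v.1) = v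
      have h5 := hred (dat (τ v))
      have h6 : (srcF e (dat (τ v))).WSat (k + 1) ↔ (srcN s (dat (τ v))).WSat (k + 1) :=
        ⟨iso_wsat (srcF_iso e _).symm, iso_wsat (srcF_iso e _)⟩
      have h7 : (srcN s (dat (τ v))).WSat (k + 1) ↔ bp (bz z) (s + 1) [] = 0 :=
        src_wsatN (fun α => uniq_tuple hbE v α)
          (hid_of hbC (by omega) w o ho z v hv.symm)
      exact h5.symm.trans (h6.trans h7)
    rw [h4] at h3
    refine no_flip S' σ hσ (s + 1) (VV B s) inferInstance _ (s2 - 1) false _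
      (by omega) h3 flip_parity hSσ ?_
    rw [card_vector]
    exact hbnd
  · by_contra hne
    rw [not_nonempty_iff] at hne
    have : Fintype.card B = 0 := by
      by_contra hB
      have : Nonempty B := Fintype.card_pos_iff.1 (Nat.pos_of_ne_zero hB)
      obtain ⟨b⟩ := this
      exact hne.false ⟨List.replicate (s + 1) b, by simp⟩
    rw [this] at hbnd
    simp only [ne_eq, Nat.add_eq_zero_iff, one_ne_zero, and_false, not_false_eq_true, zero_pow,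
      nonpos_iff_eq_zero] at hbnd
    have h5 : ∀ r q, bnd σ r q ≠ 0 := by
      intro r
      induction r using Nat.strong_induction_on with
      | _ r ih =>
        intro q
        match r with
        | 0 => simp [bnd]
        | 1 => simp [bnd]
        | r + 2 =>
          simp only [bnd]
          exact Nat.mul_ne_zero (by omega) (ih (r + 1) (by omega) _)
    exact h5 _ _ hbnd

theorem core2 {n : ℕ} (e : UN k N A1 B s ≃ Fin n) (F : Red (Bit n)) {S D r m : ℕ}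
    {g : Fin m → (Bit n → Bool) → Bool} (hg : IsCkt D g) (hF : F.All (fun f => ∃ i, g i = f))
    (hG : ∀ X : Dat k N A1 B, GAMMA (s + 1) d _ (F.apply (bits (srcF e X))))
    (hred : ∀ X : Dat k N A1 B, (srcF e X).WSat (k + 1) ↔
      (F.apply (bits (srcF e X))).WSat (F.param (bits (srcF e X))))
    (hN : 1 ≤ N) {t : ℕ} (ht : 0 < t) {l κ : ℝ} (H : RW hf l κ) (hl : 0 < l)
    (hr : 2 ≤ r) (hS : 1 ≤ S) (hmS : m ≤ S) {s1 : ℕ} (hs1 : 1 ≤ s1)
    (hnum1 : (((1 + N * ((1 / 2) ^ t) ^ k) ^ k - 1) +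
      Fintype.card (Gc B s A1) * N * ((1 / 2) ^ t) ^ k) +
      (m * (m + 1) + cst S 1) * mu (Es k (Gc B s A1)) N r (s1 - 1) ((1 / 2) ^ t * l ^ (D + 2 + 1))
        (((D + 2) * m + (1 : ℕ) * S ^ 1) * (4 * s1 * κ) ^ s1) < 1)
    {S' : ℕ} (hM : F.M ≤ S) (hS' : S + F.K ≤ S') (hS'' : (F.M + 1) ^ (F.K + 1) ≤ S')
    {q : ℕ} (hq : cL d (r ^ 2) + (s + 1) * (6 * r ^ 2) + 3 * r ^ 2 + 2 * r ^ 2 = q) (hqk : q < k)
    {s2 : ℕ} (hs2 : 1 ≤ s2) {l2 : ℝ} (hl20 : 0 ≤ l2) (hl21 : l2 ≤ 1 / 2)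
    (hnum2 : (S' : ℝ) ^ (s + 1) * (2 * q * 2 ^ k * (2 ^ (k + 1) * l2)) ^ s2 +
      Fintype.card (VV B s × ZMod 2) * (1 - l2) ^ A1 < 1)
    {σ : ℕ} (hσ : 1 ≤ σ) (hSσ : S' ^ s < 2 ^ σ)
    (hbnd : bnd σ (s + 1) (s2 - 1) ≤ Fintype.card B ^ (s + 1)) : False := by
  classical
  obtain ⟨lev, hlev, hC⟩ := ck_of_isCkt hg (srcB_sm e)
  have hp0 : (0 : ℝ) ≤ (1 / 2) ^ t := by positivity
  have hp1 : (1 / 2 : ℝ) ^ t ≤ 1 := pow_le_one₀ (by norm_num) (by norm_num)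
  obtain ⟨ω, x, hbad, hgd, _⟩ := stage_one2 (ends := endsK) endsK_inj hN ht H hl hr hs1 hS hmS
    (le_refl 1) hC hlev (fun ω x => BadE ω x ∨ BadC ω x) (plant_bad hN hp0 hp1)
    (f := fun _ => true)
    ⟨0, Nat.zero_le _, fun j => j.elim0, fun j => j.elim0, Or.inl fun x => by simp⟩ hnum1
  push Not at hbad
  obtain ⟨hbE, hbC⟩ := hbad
  refine core_rest e F hG hred hbE hbC ?_ hS hM hS' hS'' hq hqk hs2 hl20 hl21 hnum2 hσ hSσ hbnd
  refine Red.comp_all ?_ hF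
  rintro f ⟨i, rfl⟩
  exact hgd i

end core

end Pool.Agent.WSatUp
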