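import Pool.Agent.WSatAC0.Def

/-! Reductions computed by circuits of small depth, with shared gates. -/

namespace Pool.Agent.WSatUp

open Pool.Agent.WSatChain Pool.Agent.WSatAC0

/-- `g` lists the functions of the input bits `V` that are computed at the `m` gates of a circuit
of depth at most `D` with gates of unbounded fan-in: every gate has a level `≤ D` and is a
constant, an input bit, the negation of a gate of smaller level, or the AND or the OR of a set of
gates of smaller levels. -/
def IsCkt {V : Type} (D : ℕ) {m : ℕ} (g : Fin m → (V → Bool) → Bool) : Prop :=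
  ∃ lev : Fin m → ℕ, ∀ i, lev i ≤ D ∧
    ((∃ c, ∀ x, g i x = c) ∨ (∃ v, ∀ x, g i x = x v) ∨
      (∃ j, lev j < lev i ∧ ∀ x, g i x = !(g j x)) ∨
      ∃ T : Set (Fin m), (∀ j ∈ T, lev j < lev i) ∧
        ((∀ x, g i x = true ↔ ∀ j ∈ T, g j x = true) ∨
          (∀ x, g i x = true ↔ ∃ j ∈ T, g j x = true)))

/-- The slice `k` of `p-WSAT(A)` reduces to `p-WSAT(B)` by nonuniform circuits of size
`O(n ^ c)` and depth `D n`: for some `e` and every size `n` there is a map `F n` from descriptions
of labelled graphs on `n` nodes to labelled graphs with at most `e * (n + 1) ^ c` nodes and a new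
parameter at most `e`, all output bits of which are gates of one circuit with at most
`e * (n + 1) ^ c` gates and depth at most `D n`, such that for every circuit `C ∈ A` on the nodes
`0, …, n - 1` the image is in `B`, and `C` is `k`-satisfiable exactly if the image is satisfiable
by an assignment whose weight is the new parameter. -/
def SliceAC (D : ℕ → ℕ) (c k : ℕ) (A B : CClass) : Prop :=
  ∃ (e : ℕ) (F : ∀ n : ℕ, Red (Bit n)),
    (∀ n, (F n).M ≤ e * (n + 1) ^ c ∧ (F n).K ≤ e ∧
      ∃ m ≤ e * (n + 1) ^ c, ∃ g : Fin m → (Bit n → Bool) → Bool,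
        IsCkt (D n) g ∧ (F n).All (fun f => ∃ i, g i = f)) ∧
    ∀ (n : ℕ) (C : Circ (Fin n)), A _ C →
      B _ ((F n).apply (bits C)) ∧
      (C.WSat k ↔ ((F n).apply (bits C)).WSat ((F n).param (bits C)))

/-- `D n = o(log n / log log n)` -/
def SmallDepth (D : ℕ → ℕ) : Prop :=
  ∀ K : ℝ, ∀ᶠ n : ℕ in Filter.atTop, K * (D n : ℝ) * Real.log (Real.log n) ≤ Real.log n

/-- `p-WSAT(A)` reduces to `p-WSAT(B)` by nonuniform circuits of size `e(k) * (n + 1) ^ c` and
depth `o(log n / log log n)`: the exponent `c` does not depend on the parameter, while the constant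
`e` and the depth function may depend on it in any way. -/
def ReducesAC (A B : CClass) : Prop :=
  ∃ c : ℕ, ∀ k, ∃ D : ℕ → ℕ, SmallDepth D ∧ SliceAC D c k A B

end Pool.Agent.WSatUp
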