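import Pool.Agent.WSatUp.Resample
import Pool.Agent.WSatAC0.Medium

/-! Dependence on chosen positions, when every bit is a conjunction of unbiased bits. -/

namespace Pool.Agent.WSatUp

open Finset Pool.Agent.ParityAC Pool.Agent.WSatAC0

section dep

variable {O E : Type} [Fintype O] [DecidableEq O] [Fintype E] [DecidableEq E]
  (ends : E → O × O) {N t : ℕ}

omit [Fintype O] [DecidableEq O] in
theorem Dp_congr {f : (VB E N → Bool) → Bool} {x x' : VB E N → Bool} {ω : O → Fin N}
    (h : ∀ v, v ≠ st ends ω v.1 → x v = x' v) : Dp ends f x ω = Dp ends f x' ω := by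
  have h1 : ∀ y, inst ends x ω y = inst ends x' ω y := by
    intro y
    funext v
    simp only [inst]
    by_cases hv : v = st ends ω v.1
    · rw [if_pos hv, if_pos hv]
    · rw [if_neg hv, if_neg hv]
      exact h v hv
  ext e
  rw [mem_Dp, mem_Dp]
  simp only [h1]

/-- the bits of the dependence set are relevant for the restricted function -/
theorem dep_rel2 (ht : 0 < t) {f : (VB E N → Bool) → Bool} {b L : VB E N × Fin t → Bool}
    {ω : O → Fin N} {F : Finset E} (hF : Dp ends f (andB b) ω = F)
    (hb : ∀ e ∈ F, ∀ j, b (st ends ω e, j) = true)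
    (hL : ∀ e ∈ F, L (st ends ω e, ⟨0, ht⟩) = true) :
    ∀ e ∈ F, Relv (fun z => f (andB (ov (rst b L) z))) (st ends ω e, ⟨0, ht⟩) := by
  classical
  intro e he
  have he' : e ∈ Dp ends f (andB b) ω := by rw [hF]; exact he
  obtain ⟨y, hy⟩ := (mem_Dp ends).1 he'
  let tr : (E → Bool) → E → Bool := fun y e' => if e' ∈ F then y e' else andB b (st ends ω e')
  have h1 : ∀ y, f (inst ends (andB b) ω (tr y)) = f (inst ends (andB b) ω y) := by
    intro y
    apply eq_of_agree (g := fun y => f (inst ends (andB b) ω y))
    intro e' he''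
    have : e' ∈ F := by rw [← hF]; exact (mem_Dp ends).2 he''
    simp [tr, this]
  let zz : (E → Bool) → VB E N × Fin t → Bool := fun y u =>
    if u.2 = ⟨0, ht⟩ ∧ u.1 = st ends ω u.1.1 ∧ u.1.1 ∈ F then y u.1.1 else b u
  have hA : ∀ y, ov (rst b L) (zz y) = zz y := by
    intro y
    funext u
    simp only [ov, rst]
    by_cases hu : L u = true
    · simp [hu]
    · simp only [hu, Bool.false_eq_true, if_false, Option.getD_some]
      simp only [zz]
      split
      · rename_i hc
        exfalso
        apply hu
        obtain ⟨v, j⟩ := u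
        simp only at hc
        obtain ⟨rfl, hv, hvF⟩ := hc
        rw [hv]
        exact hL _ hvF
      · rfl
  have hB : ∀ y, andB (zz y) = inst ends (andB b) ω (tr y) := by
    intro y
    funext v
    simp only [inst]
    by_cases hv : v = st ends ω v.1
    · rw [if_pos hv]
      by_cases hvF : v.1 ∈ F
      · simp only [tr, hvF, if_true]
        rw [Bool.eq_iff_iff]
        simp only [andB, decide_eq_true_eq, zz]
        constructor
        · intro h
          have := h ⟨0, ht⟩
          rwa [if_pos ⟨rfl, hv, hvF⟩] at this
        · intro h j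
          split
          · exact h
          · rw [hv]
            exact hb _ hvF j
      · simp only [tr, hvF, if_false]
        have : ∀ j, zz y (v, j) = b (v, j) := by
          intro j
          simp [zz, hvF]
        simp only [andB, this]
        rw [← hv]
    · rw [if_neg hv]
      have : ∀ j, zz y (v, j) = b (v, j) := by
        intro j
        simp [zz, hv]
      simp only [andB, this]
  have hC : ∀ y, flp (zz y) (st ends ω e, ⟨0, ht⟩) = zz (flp y e) := by
    intro y
    funext u
    by_cases hu : u = (st ends ω e, ⟨0, ht⟩)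
    · subst hu
      rw [flp_self]
      have hc : True ∧ st ends ω e = st ends ω (st ends ω e).1 ∧ (st ends ω e).1 ∈ F :=
        ⟨trivial, rfl, he⟩
      simp only [zz]
      rw [if_pos hc, if_pos hc]
      exact (flp_self y e).symm
    · rw [flp_ne _ hu]
      simp only [zz]
      split
      · rename_i hc
        rw [flp_ne]
        rintro h
        apply hu
        obtain ⟨v, j⟩ := u
        simp only at hc h
        rw [hc.1, hc.2.1, h]
      · rfl
  refine ⟨zz y, ?_⟩
  show f (andB (ov (rst b L) (flp (zz y) (st ends ω e, ⟨0, ht⟩)))) ≠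
    f (andB (ov (rst b L) (zz y)))
  rw [hC, hA, hA, hB, hB, h1, h1]
  exact hy

/-- the probability of a given dependence set -/
theorem dep_prob2 (hN : 1 ≤ N) (ht : 0 < t) {l : ℝ} (h0 : 0 ≤ l) (h1 : l ≤ 1) {d : ℕ} {err : ℝ}
    (f : (VB E N → Bool) → Bool)
    (herr : PP (wo hf l) (fun ρ : VB E N × Fin t → Option Bool =>
      ¬ Sm d (fun b => f (andB (ov ρ b)))) ≤ err) (F : Finset E) :
    ((1 / 2) ^ t * l) ^ F.card *
      P2 (un N) (lw ((1 / 2) ^ t)) (fun ω x => Dp ends f x ω = F) ≤
      ((2 : ℝ) ^ d) ^ F.card * (1 / N) ^ (tch ends F).card + err := by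
  classical
  have hl := fun a => lw_nonneg h0 h1 a
  have hu := un_nonneg N
  -- first step
  have s1 : ((1 / 2) ^ t * l) ^ F.card *
      P2 (un N) (lw ((1 / 2) ^ t)) (fun ω x => Dp ends f x ω = F) ≤
      EE (un N) (fun ω : O → Fin N => EE hf (fun b => PP (lw l) (fun L =>
        ∀ e ∈ F, Relv (fun z => f (andB (ov (rst b L) z))) (st ends ω e, (⟨0, ht⟩ : Fin t))))) := by
    unfold P2
    rw [← EE_mul]
    apply EE_mono hu
    intro ω
    rw [PP_eq, ← EE_and (t := t) (fun x => if Dp ends f x ω = F then (1 : ℝ) else 0)]
    let T : Finset (VB E N × Fin t) := (F.image (st ends ω)) ×ˢ univ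
    have hT : T.card = F.card * t := by
      rw [Finset.card_product, Finset.card_image_of_injective _ (st_inj ends ω),
        Finset.card_univ, Fintype.card_fin]
    have hind := EE_indep (V := VB E N × Fin t) hf_sum (fun _ c => if c = true then 1 else 0)
      (fun b => if Dp ends f (andB b) ω = F then 1 else 0) T ?_
    · have hφ : ∑ a : Bool, hf a * (if a = true then 1 else 0) = 1 / 2 := by
        rw [Fintype.sum_bool]
        simp [hf]
      rw [hφ, Finset.prod_const, hT] at hind
      have h2 : ((1 / 2) ^ t * l) ^ F.card *
          EE hf (fun b : VB E N × Fin t → Bool => if Dp ends f (andB b) ω = F then (1 : ℝ) else 0) =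
          EE hf (fun b : VB E N × Fin t → Bool => l ^ F.card *
            ((if Dp ends f (andB b) ω = F then (1 : ℝ) else 0) *
              ∏ v ∈ T, (if b v = true then 1 else 0))) := by
        rw [EE_mul, hind, mul_pow, ← pow_mul, mul_comm t]
        ring
      rw [h2]
      apply EE_mono hf_nonneg
      intro b
      by_cases hD : Dp ends f (andB b) ω = F
      · by_cases hb : ∀ v ∈ T, b v = true
        · rw [if_pos hD, Finset.prod_congr rfl fun v hv => if_pos (hb v hv), Finset.prod_const_one,
            mul_one, mul_one]
          have h3 : PP (lw l) (fun L : VB E N × Fin t → Bool =>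
              ∀ v ∈ F.image (fun e => (st ends ω e, (⟨0, ht⟩ : Fin t))), L v = true) =
              l ^ F.card := by
            rw [PP_forall (lw_sum l) _ (fun _ c => c = true)]
            simp only [Fintype.sum_bool, lw]
            rw [Finset.prod_const, Finset.card_image_of_injective]
            · simp
            · intro e e' hee
              exact st_inj ends ω (congrArg Prod.fst hee)
          rw [← h3]
          apply PP_mono hl
          intro L hL
          refine dep_rel2 ends ht hD ?_ ?_
          · intro e he j
            exact hb _ (Finset.mem_product.2 ⟨Finset.mem_image_of_mem _ he, Finset.mem_univ _⟩)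
          · intro e he
            exact hL _ (Finset.mem_image.2 ⟨e, he, rfl⟩)
        · push Not at hb
          obtain ⟨v, hv, hbv⟩ := hb
          have h3 : ∏ v ∈ T, (if b v = true then (1 : ℝ) else 0) = 0 :=
            Finset.prod_eq_zero hv (by simp [hbv])
          rw [h3, mul_zero, mul_zero]
          exact PP_nonneg hl _
      · rw [if_neg hD, zero_mul, mul_zero]
        exact PP_nonneg hl _
    · rintro ⟨v, j⟩ hv b a
      have hv1 : v ∈ F.image (st ends ω) := (Finset.mem_product.1 hv).1
      obtain ⟨e, _, rfl⟩ := Finset.mem_image.1 hv1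
      have h3 : Dp ends f (andB (Function.update b (st ends ω e, j) a)) ω =
          Dp ends f (andB b) ω := by
        apply Dp_congr
        intro v hv
        have h4 : v ≠ st ends ω e := by
          rintro rfl
          exact hv rfl
        have h5 : ∀ j', Function.update b (st ends ω e, j) a (v, j') = b (v, j') := by
          intro j'
          rw [Function.update_of_ne]
          intro h
          exact h4 (congrArg Prod.fst h)
        simp only [andB, h5]
      simp only [h3]
  refine s1.trans ?_
  -- exchange
  rw [EE_comm]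
  have s2 : ∀ b : VB E N × Fin t → Bool, EE (un N) (fun ω : O → Fin N => PP (lw l) (fun L =>
      ∀ e ∈ F, Relv (fun z => f (andB (ov (rst b L) z))) (st ends ω e, (⟨0, ht⟩ : Fin t)))) ≤
      ((2 : ℝ) ^ d) ^ F.card * (1 / N) ^ (tch ends F).card +
        PP (lw l) (fun L => ¬ Sm d (fun z => f (andB (ov (rst b L) z)))) := by
    intro b
    simp only [PP_eq]
    rw [EE_comm]
    have h3 : ∀ L : VB E N × Fin t → Bool, EE (un N) (fun ω : O → Fin N =>
        if ∀ e ∈ F, Relv (fun z => f (andB (ov (rst b L) z))) (st ends ω e, (⟨0, ht⟩ : Fin t))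
          then (1 : ℝ) else 0) ≤
        ((2 : ℝ) ^ d) ^ F.card * (1 / N) ^ (tch ends F).card +
          (if ¬ Sm d (fun z => f (andB (ov (rst b L) z))) then (1 : ℝ) else 0) := by
      intro L
      rw [← PP_eq]
      by_cases hS : Sm d (fun z => f (andB (ov (rst b L) z)))
      · simp only [hS, not_true_eq_false, if_false, add_zero]
        obtain ⟨R, hR1, hR2⟩ := relv_finset hS
        refine le_trans (PP_mono hu (Q := fun ω => ∀ e ∈ F, st ends ω e ∈ R.image Prod.fst) ?_) ?_
        · intro ω hω e he
          exact Finset.mem_image.2 ⟨_, hR2 _ (hω e he), rfl⟩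
        · refine (omega_count ends hN (R.image Prod.fst) F).trans ?_
          gcongr
          have := (Finset.card_image_le (s := R) (f := Prod.fst)).trans hR1
          exact_mod_cast this
      · simp only [hS, not_false_eq_true, if_true]
        have := PP_le_one hu (un_sum hN) (fun ω : O → Fin N =>
          ∀ e ∈ F, Relv (fun z => f (andB (ov (rst b L) z))) (st ends ω e, (⟨0, ht⟩ : Fin t)))
        have h4 : (0 : ℝ) ≤ ((2 : ℝ) ^ d) ^ F.card * (1 / N) ^ (tch ends F).card := by positivity
        linarith
    refine (EE_mono hl h3).trans ?_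
    rw [EE_add, EE_const (lw_sum l)]
  refine (EE_mono hf_nonneg s2).trans ?_
  rw [EE_add, EE_const hf_sum]
  have s3 := PP_live (V := VB E N × Fin t) hf hf_sum l (fun ρ => ¬ Sm d (fun x => f (andB (ov ρ x))))
  rw [← s3]
  linarith

end dep

end Pool.Agent.WSatUp
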