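import Pool.Agent.WSatUp.Stage2
import Pool.Agent.WSatAC0.Gam11

/-! Weighted satisfiability of conjunctions of literals in constant depth, over any base. -/

namespace Pool.Agent.WSatUp

open Finset Pool.Agent.ParityAC Pool.Agent.WSatChain Pool.Agent.WSatCount Pool.Agent.WSatAC0

section acg

variable {V : Type} {F : Red V} {S D : ℕ} {P : ((V → Bool) → Bool) → Prop}

theorem fPos_acg2 (hP : ∀ f, P f → P (fun x => !(f x))) (hF : F.All (ACG P S D)) (hS : 2 ≤ S) (hM : F.M ≤ S) (v : Fin F.M) :
    ACG P S (D + 4) (fPos F v) := by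
  have hS1 : 1 ≤ S := by omega
  refine ACG.or2 hS ((hF.isOut v).raise_le hS1 (by omega)) ?_
  refine ACG.ex (D := D + 2) (ι := Fin F.M) (by rw [Fintype.card_fin]; exact hM)
    (g := fun p x => (F.dom p x && !(F.isNot p x)) && F.wire p v x) ?_ ?_
  · intro p
    exact ACG.and2 hS (ACG.and2 hS (hF.dom p) ((hF.isNot p).neg hP))
      ((hF.wire p v).raise hS1)
  · intro x
    simp only [decide_eq_true_eq]

theorem fNeg_acg2 (hP : ∀ f, P f → P (fun x => !(f x))) (hF : F.All (ACG P S D)) (hS : 2 ≤ S) (hM : F.M ≤ S) (v : Fin F.M) :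
    ACG P S (D + 3) (fNeg F v) := by
  have hS1 : 1 ≤ S := by omega
  refine ACG.ex (D := D + 2) (ι := Fin F.M) (by rw [Fintype.card_fin]; exact hM)
    (g := fun p x => (F.dom p x && F.isNot p x) && F.wire p v x) ?_ ?_
  · intro p
    exact ACG.and2 hS (ACG.and2 hS (hF.dom p) (hF.isNot p)) ((hF.wire p v).raise hS1)
  · intro x
    simp only [fNeg, decide_eq_true_eq]

theorem fPV_acg2 (hP : ∀ f, P f → P (fun x => !(f x))) (hF : F.All (ACG P S D)) (hS : 2 ≤ S) (hM : F.M ≤ S) (v : Fin F.M) :
    ACG P S (D + 5) (fPV F v) := by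
  have hS1 : 1 ≤ S := by omega
  exact ACG.and2 hS ((ACG.and2 hS (hF.dom v) (hF.isVar v)).raise_le hS1 (by omega))
    (fPos_acg2 hP hF hS hM v)

open Classical in
/-- **weighted satisfiability of conjunctions of literals is in constant depth** -/
theorem gam11_gen (hP : ∀ f, P f → P (fun x => !(f x))) (hF : F.All (ACG P S D)) (hG : ∀ x, GAMMA 1 1 _ (F.apply x)) (hS : 2 ≤ S)
    (hM : F.M ≤ S) (hK : 2 ^ F.K ≤ S)
    (h1 : ∀ m ≤ F.K + 1, (m * F.M + 1) * (2 * m ^ 2 + 1) ^ m ≤ S) :
    ACG P S (D + 13) (fun x => decide ((F.apply x).WSat (F.param x))) := by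
  have hS1 : 1 ≤ S := by omega
  let c1 : (V → Bool) → Bool := fun x => decide (∀ g, (!(F.dom g x && F.isOr g x) ||
    decide (∃ h, (F.dom h x && F.wire g h x) = true)) = true)
  let c2 : (V → Bool) → Bool := fun x => decide (∀ v, (!(fPV F v x && fNeg F v x)) = true)
  let c3 : (V → Bool) → Bool := fun x => decide ((univ.filter fun v => fPV F v x = true).card =
    (univ.filter fun j => F.par j x = true).card)
  have a1 : ACG P S (D + 11) c1 := by
    refine ACG.raise_le hS1 (show D + 4 ≤ D + 11 by omega) ?_
    refine ACG.all (D := D + 3) (ι := Fin F.M) (by rw [Fintype.card_fin]; exact hM)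
      (g := fun g x => (!(F.dom g x && F.isOr g x) ||
        decide (∃ h, (F.dom h x && F.wire g h x) = true))) ?_ ?_
    · intro g
      refine ACG.or2 hS ?_ ?_
      · exact ((ACG.and2 hS (hF.dom g) (hF.isOr g)).neg hP).raise_le hS1 (by omega)
      · refine ACG.ex (D := D + 1) (ι := Fin F.M) (by rw [Fintype.card_fin]; exact hM)
          (g := fun h x => (F.dom h x && F.wire g h x)) ?_ ?_
        · intro h
          exact ACG.and2 hS (hF.dom h) (hF.wire g h)
        · intro x
          simp only [decide_eq_true_eq]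
    · intro x
      simp only [c1, decide_eq_true_eq]
  have a2 : ACG P S (D + 11) c2 := by
    refine ACG.raise_le hS1 (show D + 7 ≤ D + 11 by omega) ?_
    refine ACG.all (D := D + 6) (ι := Fin F.M) (by rw [Fintype.card_fin]; exact hM)
      (g := fun v x => !(fPV F v x && fNeg F v x)) ?_ ?_
    · intro v
      exact (ACG.and2 hS (fPV_acg2 hP hF hS hM v)
        ((fNeg_acg2 hP hF hS hM v).raise_le hS1 (by omega))).neg hP
    · intro x
      simp only [c2, decide_eq_true_eq]
  have a3 : ACG P S (D + 11) c3 :=
    ACG.cntEq (D := D + 5) hP hS hK h1 hM (fPV_acg2 hP hF hS hM)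
      fun j => (hF.par j).raise_le hS1 (by omega)
  have a4 : ACG P S (D + 13) (fun x => (c1 x && c2 x) && c3 x) :=
    ACG.and2 hS (ACG.and2 hS a1 a2) (a3.raise hS1)
  have e : (fun x => decide ((F.apply x).WSat (F.param x))) = fun x => (c1 x && c2 x) && c3 x := by
    funext x
    have hfin := univ_finite F x
    rw [Bool.eq_iff_iff, decide_eq_true_eq, wsat11 (hG x), Bool.and_eq_true, Bool.and_eq_true,
      and_assoc]
    have b1 : (∀ g, (F.apply x).isOr g → ∃ h, (F.apply x).wire g h) ↔ c1 x = true := by
      simp only [c1, decide_eq_true_eq, Bool.or_eq_true, Bool.not_eq_true', Bool.and_eq_false_iff,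
        Bool.and_eq_true]
      constructor
      · intro h g
        by_cases hd : F.dom g x = true
        · by_cases ho : F.isOr g x = true
          · obtain ⟨⟨h', hh'⟩, hw⟩ := h ⟨g, hd⟩ ho
            exact Or.inr ⟨h', hh', hw⟩
          · exact Or.inl (Or.inr (by simpa using ho))
        · exact Or.inl (Or.inl (by simpa using hd))
      · rintro h ⟨g, hd⟩ ho
        rcases h g with (h2 | h2) | ⟨h', hh', hw⟩
        · rw [h2] at hd
          exact absurd hd (by simp)
        · change F.isOr g x = true at ho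
          rw [h2] at ho
          exact absurd ho (by simp)
        · exact ⟨⟨h', hh'⟩, hw⟩
    have b2 : (∀ v, (F.apply x).isVar v → ¬ (PosN (F.apply x) v ∧ NegN (F.apply x) v)) ↔
        c2 x = true := by
      simp only [c2, decide_eq_true_eq, Bool.not_eq_true', fPV]
      constructor
      · intro h v
        rw [Bool.eq_false_iff]
        intro h2
        simp only [Bool.and_eq_true] at h2
        obtain ⟨⟨⟨h3, h4⟩, h5⟩, h6⟩ := h2
        exact h ⟨v, h3⟩ h4 ⟨(fPos_iff h3).1 h5, (fNeg_iff h3).1 h6⟩
      · rintro h ⟨v, hd⟩ hvar ⟨h2, h3⟩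
        have h4 := h v
        rw [Bool.eq_false_iff] at h4
        apply h4
        simp only [Bool.and_eq_true]
        exact ⟨⟨⟨hd, hvar⟩, (fPos_iff hd).2 h2⟩, (fNeg_iff hd).2 h3⟩
    have b3 : Nat.card {v // (F.apply x).isVar v ∧ PosN (F.apply x) v} = F.param x ↔
        c3 x = true := by
      simp only [c3, decide_eq_true_eq, Red.param]
      have e1 : Nat.card {j : Fin F.K // F.par j x = true} =
          (univ.filter fun j => F.par j x = true).card := by
        rw [Nat.card_eq_fintype_card, Fintype.card_subtype]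
      have e2 : Nat.card {v // (F.apply x).isVar v ∧ PosN (F.apply x) v} =
          (univ.filter fun v => fPV F v x = true).card := by
        have e3 : Nat.card {v // (F.apply x).isVar v ∧ PosN (F.apply x) v} =
            Nat.card {v : Fin F.M // fPV F v x = true} := by
          apply Nat.card_congr
          refine ⟨fun v => ⟨v.1.1, ?_⟩, fun v => ⟨⟨v.1, ?_⟩, ?_, ?_⟩, fun _ => rfl, fun _ => rfl⟩
          · simp only [fPV, Bool.and_eq_true]
            exact ⟨⟨v.1.2, v.2.1⟩, (fPos_iff v.1.2).2 v.2.2⟩
          · have := v.2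
            simp only [fPV, Bool.and_eq_true] at this
            exact this.1.1
          · have := v.2
            simp only [fPV, Bool.and_eq_true] at this
            exact this.1.2
          · have := v.2
            simp only [fPV, Bool.and_eq_true] at this
            exact (fPos_iff this.1.1).1 this.2
        rw [e3, Nat.card_eq_fintype_card, Fintype.card_subtype]
      rw [e1, e2]
    rw [b1, b2, b3]
  rw [e]
  exact a4

end acg

end Pool.Agent.WSatUp
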