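import Pool.Agent.WSatUp.Core2
import Pool.Agent.WSatAC0.Final

/-! Estimates for circuits with shared gates. -/

namespace Pool.Agent.WSatUp

open Finset Pool.Agent.ParityAC Pool.Agent.WSatChain Pool.Agent.WSatCount Pool.Agent.WSatAC0 Filter

theorem rw_hf {l : ℝ} (h0 : 0 ≤ l) (h1 : l ≤ 1 / 2) : RW hf l (4 * l) where
  nonneg := hf_nonneg
  sum := hf_sum
  l0 := h0
  l1 := by linarith
  κ0 := by positivity
  ineq := by
    intro a
    unfold hf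
    nlinarith

theorem mu_le2 {Y : ℝ} (hY : 2 ≤ Y) {N r dd a : ℕ} {E : Type} [Fintype E] {q err : ℝ}
    (hE : ((Fintype.card E + 1 : ℕ) : ℝ) ≤ Y ^ 4) (hq0 : 0 < q) (hq : q⁻¹ ≤ Y ^ 2)
    (hN : (N : ℝ) = Y ^ a) (h2 : ((2 : ℝ) ^ dd) ^ (4 * r ^ 2) ≤ Y)
    (herr : err ≤ Y * (Y ^ (a * (r + 1)))⁻¹) (herr0 : 0 ≤ err) :
    mu E N r dd q err ≤ Y ^ (24 * r ^ 2 + 2) * (Y ^ (a * (r + 1)))⁻¹ := by
  have hY0 : 0 < Y := by linarith
  have hY1 : 1 ≤ Y := by linarith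
  unfold mu
  have e1 : ((Fintype.card E + 1 : ℕ) : ℝ) ^ (4 * r ^ 2) ≤ Y ^ (16 * r ^ 2) := by
    calc ((Fintype.card E + 1 : ℕ) : ℝ) ^ (4 * r ^ 2) ≤ (Y ^ 4) ^ (4 * r ^ 2) :=
          pow_le_pow_left₀ (by positivity) hE _
      _ = Y ^ (16 * r ^ 2) := by rw [← pow_mul]; congr 1; ring
  have e2 : (q⁻¹) ^ (4 * r ^ 2) ≤ Y ^ (8 * r ^ 2) := by
    calc (q⁻¹) ^ (4 * r ^ 2) ≤ (Y ^ 2) ^ (4 * r ^ 2) :=
          pow_le_pow_left₀ (by positivity) hq _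
      _ = Y ^ (8 * r ^ 2) := by rw [← pow_mul]; congr 1; ring
  have e3 : (1 / (N : ℝ)) ^ (r + 1) = (Y ^ (a * (r + 1)))⁻¹ := by
    rw [hN, one_div, inv_pow, ← pow_mul]
  rw [e3]
  set Z : ℝ := (Y ^ (a * (r + 1)))⁻¹ with hZ
  have hZ0 : 0 ≤ Z := by positivity
  have e4 : ((2 : ℝ) ^ dd) ^ (4 * r ^ 2) * Z + err ≤ Y ^ 2 * Z := by
    have h3 : ((2 : ℝ) ^ dd) ^ (4 * r ^ 2) * Z ≤ Y * Z := mul_le_mul_of_nonneg_right h2 hZ0
    have h4 : 2 * Y * Z ≤ Y * Y * Z := by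
      apply mul_le_mul_of_nonneg_right _ hZ0
      exact mul_le_mul_of_nonneg_right hY hY0.le
    nlinarith
  have e5 : 0 ≤ ((2 : ℝ) ^ dd) ^ (4 * r ^ 2) * Z + err := by positivity
  calc ((Fintype.card E + 1 : ℕ) : ℝ) ^ (4 * r ^ 2) *
        ((q⁻¹) ^ (4 * r ^ 2) * (((2 : ℝ) ^ dd) ^ (4 * r ^ 2) * Z + err))
      ≤ Y ^ (16 * r ^ 2) * (Y ^ (8 * r ^ 2) * (Y ^ 2 * Z)) := by
        apply mul_le_mul e1 _ (by positivity) (by positivity)
        exact mul_le_mul e2 e4 e5 (by positivity)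
    _ = Y ^ (24 * r ^ 2 + 2) * Z := by
        rw [← mul_assoc, ← mul_assoc, ← pow_add, ← pow_add]
        congr 2
        ring

/-- the error of the rounds -/
theorem est_err2 {b r w s1 C0 u m : ℕ} {X l : ℝ} (hs1 : b ≤ 4 * r ^ 2 * s1)
    (hs1b : s1 ≤ b) (hb : 1 ≤ b) (hC0 : C0 = 4 * r ^ 2 * w + 4)
    (hl : l = ((2 : ℝ) ^ C0 * b)⁻¹) (hX : X ≤ ((2 : ℝ) ^ b) ^ u) (hw : w = u + m) :
    X * (4 * s1 * (4 * l)) ^ s1 ≤ (2 : ℝ) ^ b * (((2 : ℝ) ^ b) ^ m)⁻¹ := by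
  have hb0 : (0 : ℝ) < b := by exact_mod_cast hb
  have h2b : (1 : ℝ) ≤ 2 ^ b := one_le_pow₀ (by norm_num)
  have e1 : 4 * (s1 : ℝ) * (4 * l) ≤ ((2 : ℝ) ^ (4 * r ^ 2 * w))⁻¹ := by
    rw [hl, hC0, pow_add]
    have h1 : (s1 : ℝ) ≤ b := by exact_mod_cast hs1b
    have h2 : 4 * (s1 : ℝ) * (4 * ((2 : ℝ) ^ (4 * r ^ 2 * w) * 2 ^ 4 * b)⁻¹) =
        (s1 / b) * ((2 : ℝ) ^ (4 * r ^ 2 * w))⁻¹ := by
      field_simp
      ring
    rw [h2]
    have h3 : (s1 : ℝ) / b ≤ 1 := by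
      rw [div_le_one hb0]
      exact h1
    calc (s1 : ℝ) / b * ((2 : ℝ) ^ (4 * r ^ 2 * w))⁻¹ ≤ 1 * ((2 : ℝ) ^ (4 * r ^ 2 * w))⁻¹ :=
          mul_le_mul_of_nonneg_right h3 (by positivity)
      _ = _ := one_mul _
  have hl0 : 0 ≤ l := by
    rw [hl]
    positivity
  have e2 : (4 * (s1 : ℝ) * (4 * l)) ^ s1 ≤ (((2 : ℝ) ^ b) ^ w)⁻¹ := by
    calc (4 * (s1 : ℝ) * (4 * l)) ^ s1 ≤ (((2 : ℝ) ^ (4 * r ^ 2 * w))⁻¹) ^ s1 :=
          pow_le_pow_left₀ (by positivity) e1 _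
      _ = ((2 : ℝ) ^ (4 * r ^ 2 * s1 * w))⁻¹ := by
          rw [inv_pow, ← pow_mul]
          congr 2
          ring
      _ ≤ ((2 : ℝ) ^ (b * w))⁻¹ := by
          apply inv_anti₀ (by positivity)
          apply pow_le_pow_right₀ (by norm_num)
          exact Nat.mul_le_mul_right _ hs1
      _ = _ := by rw [pow_mul]
  have h3 : 0 ≤ (4 * (s1 : ℝ) * (4 * l)) ^ s1 := by positivity
  calc X * (4 * s1 * (4 * l)) ^ s1 ≤ ((2 : ℝ) ^ b) ^ u * (((2 : ℝ) ^ b) ^ w)⁻¹ :=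
        mul_le_mul hX e2 h3 (by positivity)
    _ = (((2 : ℝ) ^ b) ^ m)⁻¹ := by
        rw [hw, pow_add]
        field_simp
    _ = 1 * (((2 : ℝ) ^ b) ^ m)⁻¹ := (one_mul _).symm
    _ ≤ _ := mul_le_mul_of_nonneg_right h2b (by positivity)

/-- second estimate: the circuits -/
theorem est_main2 {Y : ℝ} (hY : 8 ≤ Y) {C μ : ℝ} {u v m : ℕ} (hC : C ≤ Y ^ u) (hμ0 : 0 ≤ μ)
    (hμ : μ ≤ Y ^ v * (Y ^ m)⁻¹) (hm : u + v + 2 ≤ m) : C * μ ≤ 1 / 4 := by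
  have hY0 : 0 < Y := by linarith
  have h1 : C * μ ≤ Y ^ u * (Y ^ v * (Y ^ m)⁻¹) := mul_le_mul hC hμ hμ0 (by positivity)
  obtain ⟨w, hw⟩ := Nat.exists_eq_add_of_le hm
  have h3 : Y ^ u * (Y ^ v * (Y ^ m)⁻¹) = (Y ^ (2 + w))⁻¹ := by
    rw [hw]
    have : Y ^ (u + v + 2 + w) = Y ^ u * Y ^ v * Y ^ (2 + w) := by
      rw [← pow_add, ← pow_add]
      congr 1
      ring
    rw [this]
    field_simp
  have h4 : (Y ^ (2 + w))⁻¹ ≤ 1 / 4 := by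
    rw [one_div]
    apply inv_anti₀ (by norm_num)
    calc (4 : ℝ) ≤ Y ^ 2 := by nlinarith
      _ ≤ Y ^ (2 + w) := pow_le_pow_right₀ (by linarith) (by omega)
  rw [h3] at h1
  exact h1.trans h4

theorem q_inv {b C0 D : ℕ} (hb : 1 ≤ b) (hQ : (2 ^ C0 * b) ^ D ≤ 2 ^ b) {l : ℝ}
    (hl : l = ((2 : ℝ) ^ C0 * b)⁻¹) : ((1 / 2 : ℝ) ^ b * l ^ D)⁻¹ ≤ ((2 : ℝ) ^ b) ^ 2 := by
  have hb0 : (0 : ℝ) < b := by exact_mod_cast hb
  have h1 : ((2 : ℝ) ^ C0 * b) ^ D ≤ 2 ^ b := by exact_mod_cast hQ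
  have h2 : ((1 / 2 : ℝ) ^ b * l ^ D)⁻¹ = 2 ^ b * ((2 : ℝ) ^ C0 * b) ^ D := by
    rw [hl, mul_inv, one_div, inv_pow, inv_inv, inv_pow, inv_inv]
  rw [h2, pow_two]
  exact mul_le_mul_of_nonneg_left h1 (by positivity)

/-- the depth -/
theorem depth_ok {A C0 j : ℕ} (hA : 1 ≤ A) {K : ℝ} (hK : 8 * (A : ℝ) ≤ K) {D : ℕ → ℕ}
    (hD : ∀ᶠ n : ℕ in atTop, K * (D n : ℝ) * Real.log (Real.log n) ≤ Real.log n) :
    ∀ᶠ b : ℕ in atTop, ∀ n : ℕ, 2 ^ b ≤ n → n ≤ 2 ^ (b * A) →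
      (2 ^ C0 * b) ^ (D n + j) ≤ 2 ^ b := by
  obtain ⟨n0, hn0⟩ := eventually_atTop.1 hD
  have hlog2 : 0 < Real.log 2 := Real.log_pos (by norm_num)
  have hlogb : Tendsto (fun b : ℕ => Real.log (b : ℝ)) atTop atTop :=
    Real.tendsto_log_atTop.comp tendsto_natCast_atTop_atTop
  have c1 : ∀ᶠ b : ℕ in atTop, (C0 : ℝ) * Real.log 2 ≤ Real.log b :=
    hlogb.eventually_ge_atTop _
  have c2 : ∀ᶠ b : ℕ in atTop, -2 * Real.log (Real.log 2) ≤ Real.log b :=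
    hlogb.eventually_ge_atTop _
  have c3 : ∀ᶠ b : ℕ in atTop, 4 * j * Real.log b ≤ b * Real.log 2 := by
    have h1 := Real.isLittleO_log_id_atTop.bound (c := Real.log 2 / (4 * (j + 1))) (by positivity)
    have h2 := (tendsto_natCast_atTop_atTop (R := ℝ)).eventually h1
    filter_upwards [h2, hlogb.eventually_ge_atTop 0] with b hb hb0
    simp only [id, Real.norm_eq_abs] at hb
    rw [abs_of_nonneg hb0, abs_of_nonneg (by positivity)] at hb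
    have h3 : 4 * ((j : ℝ) + 1) * Real.log b ≤ b * Real.log 2 := by
      calc 4 * ((j : ℝ) + 1) * Real.log b ≤ 4 * ((j : ℝ) + 1) *
            (Real.log 2 / (4 * (j + 1)) * b) := mul_le_mul_of_nonneg_left hb (by positivity)
        _ = b * Real.log 2 := by field_simp
    nlinarith
  have c4 : ∀ᶠ b : ℕ in atTop, 1 ≤ Real.log b := hlogb.eventually_ge_atTop _
  filter_upwards [c1, c2, c3, c4, eventually_ge_atTop n0, eventually_ge_atTop 1] with b c1 c2 c3 c4 c5 c6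
  intro n hn1 hn2
  have hb0 : (0 : ℝ) < b := by exact_mod_cast c6
  have hnn0 : n0 ≤ n := by
    have : b < 2 ^ b := Nat.lt_two_pow_self
    omega
  have h1 := hn0 n hnn0
  have hn1' : ((2 : ℝ) ^ b) ≤ n := by exact_mod_cast hn1
  have hn2' : (n : ℝ) ≤ (2 : ℝ) ^ (b * A) := by exact_mod_cast hn2
  have hnpos : (0 : ℝ) < n := lt_of_lt_of_le (by positivity) hn1'
  have hlogn1 : b * Real.log 2 ≤ Real.log n := by
    have := Real.log_le_log (by positivity) hn1'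
    rwa [Real.log_pow] at this
  have hlogn2 : Real.log n ≤ b * A * Real.log 2 := by
    have := Real.log_le_log hnpos hn2'
    rw [Real.log_pow] at this
    push_cast at this
    exact this
  have hll : (1 / 2) * Real.log b ≤ Real.log (Real.log n) := by
    have h2 := Real.log_le_log (by positivity) hlogn1
    rw [Real.log_mul hb0.ne' hlog2.ne'] at h2
    linarith
  have hA0 : (0 : ℝ) < A := by exact_mod_cast hA
  have hDn : (0 : ℝ) ≤ D n := Nat.cast_nonneg _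
  have h2 : 8 * (A : ℝ) * D n * ((1 / 2) * Real.log b) ≤ b * A * Real.log 2 := by
    calc 8 * (A : ℝ) * D n * ((1 / 2) * Real.log b) ≤ K * D n * ((1 / 2) * Real.log b) := by
          apply mul_le_mul_of_nonneg_right _ (by linarith)
          exact mul_le_mul_of_nonneg_right hK hDn
      _ ≤ K * D n * Real.log (Real.log n) := by
          apply mul_le_mul_of_nonneg_left hll
          apply mul_nonneg _ hDn
          linarith
      _ ≤ _ := h1.trans hlogn2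
  have h3 : 4 * (D n : ℝ) * Real.log b ≤ b * Real.log 2 := by
    have h4 : A * (4 * (D n : ℝ) * Real.log b) ≤ A * (b * Real.log 2) := by linarith
    exact le_of_mul_le_mul_left h4 hA0
  have h5 : ((D n : ℝ) + j) * (C0 * Real.log 2 + Real.log b) ≤ b * Real.log 2 := by
    have h6 : ((D n : ℝ) + j) * (C0 * Real.log 2 + Real.log b) ≤
        ((D n : ℝ) + j) * (2 * Real.log b) := by
      apply mul_le_mul_of_nonneg_left _ (by positivity)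
      linarith
    nlinarith
  have h7 : ((2 : ℝ) ^ C0 * b) ^ (D n + j) ≤ 2 ^ b := by
    have hpos : (0 : ℝ) < (2 : ℝ) ^ C0 * b := by positivity
    rw [← Real.log_le_log_iff (by positivity) (by positivity), Real.log_pow, Real.log_pow,
      Real.log_mul (by positivity) hb0.ne', Real.log_pow]
    push_cast
    exact h5
  exact_mod_cast h7

end Pool.Agent.WSatUp
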