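import Pool.Agent.WSatAC0.Slots

/-! Independence, and biased bits as conjunctions of unbiased bits. -/

namespace Pool.Agent.WSatUp

open Finset Pool.Agent.WSatAC0

section resample

variable {V α : Type} [Fintype V] [DecidableEq V] [Fintype α]

theorem prod_upd (w : α → ℝ) (g : V → α) (v : V) (a : α) :
    (∏ u, w (Function.update g v a u)) * w (g v) = (∏ u, w (g u)) * w a := by
  rw [← Finset.mul_prod_erase univ (fun u => w (Function.update g v a u)) (Finset.mem_univ v),
    ← Finset.mul_prod_erase univ (fun u => w (g u)) (Finset.mem_univ v)]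
  have h : ∏ u ∈ univ.erase v, w (Function.update g v a u) = ∏ u ∈ univ.erase v, w (g u) := by
    apply Finset.prod_congr rfl
    intro u hu
    rw [Function.update_of_ne (Finset.mem_erase.1 hu).1]
  rw [h]
  simp only [Function.update_self]
  ring

/-- choosing one coordinate again does not change the expectation -/
theorem EE_resample {w : α → ℝ} (hw1 : ∑ a, w a = 1) (v : V) (H : (V → α) → ℝ) :
    EE w (fun g => ∑ a, w a * H (Function.update g v a)) = EE w H := by
  unfold EE
  simp only [Finset.mul_sum]
  rw [← Fintype.sum_prod_type' (f := fun (g : V → α) (a : α) =>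
    (∏ u, w (g u)) * (w a * H (Function.update g v a)))]
  let σ : (V → α) × α → (V → α) × α := fun p => (Function.update p.1 v p.2, p.1 v)
  have hσ : Function.Involutive σ := by
    rintro ⟨g, a⟩
    simp only [σ, Function.update_self, Function.update_idem, Function.update_eq_self]
  rw [← Equiv.sum_comp (hσ.toPerm σ)]
  have h1 : ∀ p : (V → α) × α, (∏ u, w (((hσ.toPerm σ) p).1 u)) * (w ((hσ.toPerm σ) p).2 *
      H (Function.update ((hσ.toPerm σ) p).1 v ((hσ.toPerm σ) p).2)) =
      (∏ u, w (p.1 u)) * w p.2 * H p.1 := by
    rintro ⟨g, a⟩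
    show (∏ u, w (Function.update g v a u)) * (w (g v) *
      H (Function.update (Function.update g v a) v (g v))) = _
    rw [← mul_assoc, prod_upd, Function.update_idem, Function.update_eq_self]
  rw [Finset.sum_congr rfl fun p _ => h1 p, Fintype.sum_prod_type]
  apply Finset.sum_congr rfl
  intro g _
  have h2 : ∀ a, (∏ u, w (g u)) * w a * H g = w a * ((∏ u, w (g u)) * H g) := fun a => by ring
  rw [Finset.sum_congr rfl fun a _ => h2 a, ← Finset.sum_mul, hw1, one_mul]

/-- independence -/
theorem EE_indep {w : α → ℝ} (hw1 : ∑ a, w a = 1) (φ : V → α → ℝ) (F : (V → α) → ℝ)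
    (T : Finset V) : (∀ v ∈ T, ∀ g a, F (Function.update g v a) = F g) →
    EE w (fun g => F g * ∏ v ∈ T, φ v (g v)) = EE w F * ∏ v ∈ T, ∑ a, w a * φ v a := by
  induction T using Finset.induction_on with
  | empty => intro _; simp
  | insert v T hv ih =>
    intro hF
    have ih' := ih fun u hu => hF u (Finset.mem_insert_of_mem hu)
    rw [← EE_resample hw1 v]
    have h1 : ∀ g : V → α, ∑ a, w a * (F (Function.update g v a) *
        ∏ u ∈ insert v T, φ u (Function.update g v a u)) =
        (∑ a, w a * φ v a) * (F g * ∏ u ∈ T, φ u (g u)) := by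
      intro g
      rw [Finset.sum_mul]
      apply Finset.sum_congr rfl
      intro a _
      rw [hF v (Finset.mem_insert_self _ _), Finset.prod_insert hv, Function.update_self]
      have h2 : ∏ u ∈ T, φ u (Function.update g v a u) = ∏ u ∈ T, φ u (g u) := by
        apply Finset.prod_congr rfl
        intro u hu
        have huv : u ≠ v := by
          rintro rfl
          exact hv hu
        rw [Function.update_of_ne huv]
      rw [h2]
      ring
    simp only [h1]
    rw [EE_mul, ih', Finset.prod_insert hv]
    ring

end resample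

section conj

variable {V : Type} [Fintype V] [DecidableEq V] {t : ℕ}

/-- unbiased bits -/
noncomputable def hf : Bool → ℝ := fun _ => 1 / 2

theorem hf_nonneg (a : Bool) : 0 ≤ hf a := by
  unfold hf
  norm_num

theorem hf_sum : ∑ a, hf a = 1 := by
  rw [Fintype.sum_bool]
  unfold hf
  norm_num

/-- conjunctions of blocks of bits -/
def andB (b : V × Fin t → Bool) : V → Bool := fun v => decide (∀ j, b (v, j) = true)

/-- conjunctions of unbiased bits are biased bits -/
theorem EE_and (Φ : (V → Bool) → ℝ) :
    EE hf (fun b : V × Fin t → Bool => Φ (andB b)) = EE (lw ((1 / 2) ^ t)) Φ := by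
  have h1 : EE hf (fun b : V × Fin t → Bool => Φ (andB b)) =
      EE (fun a : Fin t → Bool => ∏ j, hf (a j)) (fun g : V → (Fin t → Bool) =>
        Φ (fun v => decide (∀ j, g v j = true))) := by
    unfold EE
    rw [← (Equiv.curry V (Fin t) Bool).symm.sum_comp]
    apply Finset.sum_congr rfl
    intro g _
    rw [Fintype.prod_prod_type]
    rfl
  rw [h1]
  have h2 := EE_push (V := V) (fun a : Fin t → Bool => ∏ j, hf (a j))
    (fun a => decide (∀ j, a j = true)) Φ
  rw [h2]
  congr 1
  funext c
  have e1 : ∀ a : Fin t → Bool, ∏ j, hf (a j) = (1 / 2 : ℝ) ^ t := by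
    intro a
    simp [hf]
  have e2 : (univ.filter fun a : Fin t → Bool => decide (∀ j, a j = true) = true) =
      {fun _ => true} := by
    ext a
    simp only [Finset.mem_filter, Finset.mem_univ, true_and, decide_eq_true_eq,
      Finset.mem_singleton]
    exact ⟨fun h => funext h, fun h j => by rw [h]⟩
  have e3 : ∑ a : Fin t → Bool, ∏ j, hf (a j) = 1 := by
    rw [Finset.sum_congr rfl fun a _ => e1 a, Finset.sum_const, Finset.card_univ,
      Fintype.card_fun, Fintype.card_bool, Fintype.card_fin, nsmul_eq_mul]
    push_cast
    rw [← mul_pow]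
    norm_num
  have e4 : ∑ a : Fin t → Bool with decide (∀ j, a j = true) = true, ∏ j, hf (a j) =
      (1 / 2 : ℝ) ^ t := by
    rw [e2, Finset.sum_singleton]
    exact e1 _
  cases c
  · have e5 := Finset.sum_filter_add_sum_filter_not (univ : Finset (Fin t → Bool))
      (fun a => decide (∀ j, a j = true) = true) (fun a => ∏ j, hf (a j))
    rw [e3, e4] at e5
    have e6 : (univ.filter fun a : Fin t → Bool => ¬ decide (∀ j, a j = true) = true) =
        univ.filter fun a : Fin t → Bool => decide (∀ j, a j = true) = false := by
      ext a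
      simp only [Finset.mem_filter, Finset.mem_univ, true_and, Bool.not_eq_true]
    rw [e6] at e5
    simp only [lw, Bool.false_eq_true, if_false]
    linarith
  · rw [e4]
    simp only [lw, if_true]

end conj

end Pool.Agent.WSatUp
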