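import Pool.Agent.WSatUp.Resample
import Pool.Agent.WSatAC0.Comp

/-! Random restrictions for circuits with shared gates. -/

namespace Pool.Agent.WSatUp

open Finset Pool.Agent.ParityAC Pool.Agent.WSatAC0

/-- the functions computed at the gates of a circuit over functions with property `P` -/
def CK {X I : Type} (P : (X → Bool) → Prop) (g : I → X → Bool) (lev : I → ℕ) : Prop :=
  ∀ i, P (g i) ∨ (∃ j, lev j < lev i ∧ ∀ x, g i x = !(g j x)) ∨
    ∃ T : Set I, (∀ j ∈ T, lev j < lev i) ∧
      ((∀ x, g i x = true ↔ ∀ j ∈ T, g j x = true) ∨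
        (∀ x, g i x = true ↔ ∃ j ∈ T, g j x = true))

theorem CK.mapX {X Y I : Type} {P : (X → Bool) → Prop} {Q : (Y → Bool) → Prop} {g : I → X → Bool}
    {lev : I → ℕ} (h : CK P g lev) (τ : Y → X) (hP : ∀ f, P f → Q (fun y => f (τ y))) :
    CK Q (fun i y => g i (τ y)) lev := by
  intro i
  rcases h i with h | ⟨j, h1, h2⟩ | ⟨T, h1, h2 | h2⟩
  · exact Or.inl (hP _ h)
  · exact Or.inr (Or.inl ⟨j, h1, fun y => h2 _⟩)
  · exact Or.inr (Or.inr ⟨T, h1, Or.inl fun y => h2 _⟩)
  · exact Or.inr (Or.inr ⟨T, h1, Or.inr fun y => h2 _⟩)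

/-- constants, gates and negated gates -/
def Cl {X I : Type} (g : I → X → Bool) (h : X → Bool) : Prop :=
  (∃ c, ∀ x, h x = c) ∨ (∃ i, ∀ x, h x = g i x) ∨ (∃ i, ∀ x, h x = !(g i x))

theorem Cl.neg {X I : Type} {g : I → X → Bool} {h : X → Bool} (hh : Cl g h) :
    Cl g (fun x => !(h x)) := by
  rcases hh with ⟨c, hc⟩ | ⟨i, hi⟩ | ⟨i, hi⟩
  · exact Or.inl ⟨!c, fun x => by simp only [hc]⟩
  · exact Or.inr (Or.inr ⟨i, fun x => by simp only [hi]⟩)
  · exact Or.inr (Or.inl ⟨i, fun x => by simp only [hi, Bool.not_not]⟩)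

section sm

variable {V : Type}

theorem Sm.const (d : ℕ) (c : Bool) {f : (V → Bool) → Bool} (h : ∀ x, f x = c) : Sm d f :=
  ⟨DT.leaf c, Nat.zero_le _, fun x => (h x).symm⟩

theorem Sm.ov {d : ℕ} {f : (V → Bool) → Bool} (h : Sm d f) (ρ : V → Option Bool) :
    Sm d (fun x => f (ov ρ x)) := by
  obtain ⟨t, h1, h2⟩ := h
  apply sm_of_small
  have key : ∀ t : DT V, ∃ t' : DTA V Bool, t'.DepthLe t.depth ∧ ∀ x, t'.eval x = t.eval x := by
    intro t
    induction t with
    | leaf b => exact ⟨.leaf b, trivial, fun _ => rfl⟩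
    | node v t0 t1 ih0 ih1 =>
      obtain ⟨t0', a0, b0⟩ := ih0
      obtain ⟨t1', a1, b1⟩ := ih1
      refine ⟨.node v (fun b => if b then t1' else t0'), ?_, ?_⟩
      · simp only [DT.depth]
        intro b
        cases b
        · exact a0.mono (le_max_left _ _)
        · exact a1.mono (le_max_right _ _)
      · intro x
        simp only [DTA.eval, DT.eval]
        cases x v
        · simp [b0]
        · simp [b1]
  obtain ⟨t', a, b⟩ := key t
  exact ⟨t', a.mono h1, fun x _ => (b x).trans (h2 x)⟩

end sm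

section rounds

variable {V : Type} [Fintype V] [DecidableEq V] {w : Bool → ℝ} {l κ : ℝ}

theorem gate_set (H : RW w l κ) {I : Type} [Fintype I] {q s : ℕ} (hs : 1 ≤ s)
    (g : I → (V → Bool) → Bool) (T : Set I) (hg : ∀ i ∈ T, Sm q (g i)) (f : (V → Bool) → Bool)
    (hf : (∀ x, f x = true ↔ ∀ i ∈ T, g i x = true) ∨
      (∀ x, f x = true ↔ ∃ i ∈ T, g i x = true)) :
    PP (wo w l) (fun ρ : V → Option Bool => ¬ Sm (s - 1) (fun x => f (ov ρ x))) ≤
      (4 * q * κ) ^ s := by
  classical
  let e := Fintype.equivFin I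
  rcases hf with hf | hf
  · refine gate_round H hs (n := Fintype.card I)
      (fun k => if e.symm k ∈ T then g (e.symm k) else fun _ => true) ?_ f (Or.inl ?_)
    · intro k
      by_cases hk : e.symm k ∈ T
      · rw [if_pos hk]
        exact hg _ hk
      · rw [if_neg hk]
        exact Sm.const q true fun _ => rfl
    · intro x
      rw [hf]
      constructor
      · intro h k
        by_cases hk : e.symm k ∈ T
        · rw [if_pos hk]
          exact h _ hk
        · rw [if_neg hk]
      · intro h i hi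
        have := h (e i)
        rwa [e.symm_apply_apply, if_pos hi] at this
  · refine gate_round H hs (n := Fintype.card I)
      (fun k => if e.symm k ∈ T then g (e.symm k) else fun _ => false) ?_ f (Or.inr ?_)
    · intro k
      by_cases hk : e.symm k ∈ T
      · rw [if_pos hk]
        exact hg _ hk
      · rw [if_neg hk]
        exact Sm.const q false fun _ => rfl
    · intro x
      rw [hf]
      constructor
      · rintro ⟨i, hi, h⟩
        refine ⟨e i, ?_⟩
        rwa [e.symm_apply_apply, if_pos hi]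
      · rintro ⟨k, h⟩
        by_cases hk : e.symm k ∈ T
        · rw [if_pos hk] at h
          exact ⟨_, hk, h⟩
        · rw [if_neg hk] at h
          exact absurd h (by simp)

/-- the small gates after some rounds -/
def Good {I : Type} (P : ((V → Bool) → Bool) → Prop) (g : I → (V → Bool) → Bool) (lev : I → ℕ)
    (s j : ℕ) (ρ : V → Option Bool) : Prop :=
  ∀ i, (P (g i) ∨ lev i < j) → Sm (s - 1) (fun x => g i (ov ρ x))

theorem rounds_ck (H : RW w l κ) {I : Type} [Fintype I] {P : ((V → Bool) → Bool) → Prop}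
    {g : I → (V → Bool) → Bool} {lev : I → ℕ} (hC : CK P g lev) {s : ℕ} (hs : 1 ≤ s)
    (hbase : ∀ f, P f → PP (wo w l) (fun ρ : V → Option Bool =>
      ¬ Sm (s - 1) (fun x => f (ov ρ x))) ≤ (4 * s * κ) ^ s) : ∀ j : ℕ,
    PP (wo w (l ^ (j + 1))) (fun ρ : V → Option Bool => ¬ Good P g lev s j ρ) ≤
      (j + 1) * Fintype.card I * (4 * s * κ) ^ s := by
  classical
  have hκ := H.κ0
  have hwo := fun a => wo_nonneg H.nonneg H.l0 H.l1 a
  have hε : (0 : ℝ) ≤ (4 * s * κ) ^ s := by positivity
  intro j
  induction j with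
  | zero =>
    have h1 : PP (wo w (l ^ (0 + 1))) (fun ρ : V → Option Bool => ¬ Good P g lev s 0 ρ) ≤
        ∑ i : I, PP (wo w l) (fun ρ : V → Option Bool =>
          P (g i) ∧ ¬ Sm (s - 1) (fun x => g i (ov ρ x))) := by
      rw [zero_add, pow_one]
      refine le_trans (PP_mono hwo ?_) (PP_exists hwo Finset.univ _)
      intro ρ hρ
      unfold Good at hρ
      push Not at hρ
      obtain ⟨i, hi, hni⟩ := hρ
      refine ⟨i, Finset.mem_univ _, ?_, hni⟩
      rcases hi with hi | hi
      · exact hi
      · exact absurd hi (Nat.not_lt_zero _)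
    refine h1.trans ((Finset.sum_le_sum (g := fun _ => (4 * (s : ℝ) * κ) ^ s) fun i _ => ?_).trans ?_)
    · by_cases hP : P (g i)
      · refine le_trans (PP_mono hwo fun ρ hρ => hρ.2) (hbase _ hP)
      · simp only [hP, false_and]
        unfold PP EE
        simp only [if_false, mul_zero, Finset.sum_const_zero]
        exact hε
    · rw [Finset.sum_const, Finset.card_univ, nsmul_eq_mul]
      simp
  | succ j ih =>
    have hl0 : 0 ≤ l ^ (j + 1) := pow_nonneg H.l0 _
    have hl1 : l ^ (j + 1) ≤ 1 := pow_le_one₀ H.l0 H.l1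
    have hwo' := fun a => wo_nonneg H.nonneg hl0 hl1 a
    rw [pow_succ l (j + 1), PP_comp H.sum (l ^ (j + 1)) l]
    have hstep : ∀ ρ : V → Option Bool, PP (wo w l) (fun ρ' : V → Option Bool =>
        ¬ Good P g lev s (j + 1) (fun v => cmpO (ρ v, ρ' v))) ≤
        (if ¬ Good P g lev s j ρ then 1 else 0) + Fintype.card I * (4 * s * κ) ^ s := by
      intro ρ
      by_cases hG : Good P g lev s j ρ
      · simp only [hG, not_true_eq_false, if_false, zero_add]
        have h1 : PP (wo w l) (fun ρ' : V → Option Bool =>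
            ¬ Good P g lev s (j + 1) (fun v => cmpO (ρ v, ρ' v))) ≤
            ∑ i : I, PP (wo w l) (fun ρ' : V → Option Bool =>
              (P (g i) ∨ lev i < j + 1) ∧
                ¬ Sm (s - 1) (fun x => (fun y => g i (ov ρ y)) (ov ρ' x))) := by
          refine le_trans (PP_mono hwo ?_) (PP_exists hwo Finset.univ _)
          intro ρ' hρ'
          unfold Good at hρ'
          push Not at hρ'
          obtain ⟨i, hi, hni⟩ := hρ'
          refine ⟨i, Finset.mem_univ _, hi, ?_⟩
          simpa only [ov_cmp] using hni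
        refine h1.trans ((Finset.sum_le_sum (g := fun _ => (4 * (s : ℝ) * κ) ^ s)
          fun i _ => ?_).trans ?_)
        · have hzero : ∀ Q : (V → Option Bool) → Prop, (∀ ρ', ¬ Q ρ') → PP (wo w l) Q ≤
              (4 * (s : ℝ) * κ) ^ s := by
            intro Q hQ
            unfold PP EE
            simp only [hQ, if_false, mul_zero, Finset.sum_const_zero]
            exact hε
          by_cases hold : P (g i) ∨ lev i < j
          · apply hzero
            rintro ρ' ⟨_, h2⟩
            exact h2 (Sm.ov (hG i hold) ρ')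
          · push Not at hold
            obtain ⟨hnP, hlev⟩ := hold
            by_cases hlev' : lev i < j + 1
            · rcases hC i with h | ⟨j', h2, h3⟩ | ⟨T, h2, h3⟩
              · exact absurd h hnP
              · apply hzero
                rintro ρ' ⟨_, h4⟩
                apply h4
                simp only [h3]
                exact Sm.not (Sm.ov (hG j' (Or.inr (by omega))) ρ')
              · have h4 := gate_set H hs (fun k y => g k (ov ρ y)) T
                  (fun k hk => hG k (Or.inr (by have := h2 k hk; omega)))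
                  (fun y => g i (ov ρ y)) (by
                    rcases h3 with h3 | h3
                    · exact Or.inl fun y => h3 _
                    · exact Or.inr fun y => h3 _)
                refine le_trans (PP_mono hwo fun ρ' hρ' => hρ'.2) (h4.trans ?_)
                apply pow_le_pow_left₀ (by positivity)
                have : ((s - 1 : ℕ) : ℝ) ≤ s := by exact_mod_cast Nat.sub_le _ _
                gcongr
            · apply hzero
              rintro ρ' ⟨h2 | h2, _⟩
              · exact hnP h2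
              · exact hlev' h2
        · rw [Finset.sum_const, Finset.card_univ, nsmul_eq_mul]
      · simp only [hG, not_false_eq_true, if_true]
        have := PP_le_one hwo (wo_sum H.sum l) (fun ρ' : V → Option Bool =>
          ¬ Good P g lev s (j + 1) (fun v => cmpO (ρ v, ρ' v)))
        have h2 : (0 : ℝ) ≤ Fintype.card I * (4 * s * κ) ^ s := by positivity
        linarith
    refine (EE_mono hwo' hstep).trans ?_
    rw [EE_add, EE_const (wo_sum H.sum (l ^ (j + 1)))]
    have h2 : EE (wo w (l ^ (j + 1))) (fun ρ : V → Option Bool =>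
        if ¬ Good P g lev s j ρ then (1 : ℝ) else 0) =
        PP (wo w (l ^ (j + 1))) (fun ρ : V → Option Bool => ¬ Good P g lev s j ρ) :=
      (PP_eq _ _).symm
    rw [h2]
    push_cast
    linarith

/-- a formula of small depth on top of a circuit -/
theorem rounds_top (H : RW w l κ) {I : Type} [Fintype I] {P : ((V → Bool) → Bool) → Prop}
    {g : I → (V → Bool) → Bool} {lev : I → ℕ} (hC : CK P g lev) {s : ℕ} (hs : 1 ≤ s)
    (hbase : ∀ f, P f → PP (wo w l) (fun ρ : V → Option Bool =>
      ¬ Sm (s - 1) (fun x => f (ov ρ x))) ≤ (4 * s * κ) ^ s) {D : ℕ} (hD : ∀ i, lev i ≤ D)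
    {S D' : ℕ} (hS : 1 ≤ S) {f : (V → Bool) → Bool} (hf : ACG (Cl g) S D' f) :
    PP (wo w (l ^ (D + 2 + D'))) (fun ρ : V → Option Bool => ¬ Sm (s - 1) (fun x => f (ov ρ x))) ≤
      ((D + 2) * Fintype.card I + D' * S ^ D') * (4 * s * κ) ^ s := by
  classical
  have hκ := H.κ0
  have hl0 : 0 ≤ l ^ (D + 1 + 1) := pow_nonneg H.l0 _
  have hl1 : l ^ (D + 1 + 1) ≤ 1 := pow_le_one₀ H.l0 H.l1
  have hwo' := fun a => wo_nonneg H.nonneg hl0 hl1 a
  have hl0' : 0 ≤ l ^ D' := pow_nonneg H.l0 _
  have hl1' : l ^ D' ≤ 1 := pow_le_one₀ H.l0 H.l1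
  have hwo2 := fun a => wo_nonneg H.nonneg hl0' hl1' a
  have h1 := rounds_ck H hC hs hbase (D + 1)
  rw [show D + 2 + D' = (D + 1 + 1) + D' by ring, pow_add l (D + 1 + 1) D',
    PP_comp H.sum (l ^ (D + 1 + 1)) (l ^ D')]
  have hstep : ∀ ρ : V → Option Bool, PP (wo w (l ^ D')) (fun ρ' : V → Option Bool =>
      ¬ Sm (s - 1) (fun x => f (ov (fun v => cmpO (ρ v, ρ' v)) x))) ≤
      (if ¬ Good P g lev s (D + 1) ρ then 1 else 0) + D' * S ^ D' * (4 * s * κ) ^ s := by
    intro ρ
    by_cases hG : Good P g lev s (D + 1) ρ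
    · simp only [hG, not_true_eq_false, if_false, zero_add]
      have h2 : ACG (Sm (s - 1)) S D' (fun y => f (ov ρ y)) := by
        refine ACG.mapX (ov ρ) ?_ hf
        intro h hh
        rcases hh with ⟨c, hc⟩ | ⟨i, hi⟩ | ⟨i, hi⟩
        · exact Sm.const _ c fun y => hc _
        · simp only [hi]
          exact hG i (Or.inr (by have := hD i; omega))
        · simp only [hi]
          exact (hG i (Or.inr (by have := hD i; omega))).not
      have h3 := all_rounds H hs hS D' (s - 1) _ (le_refl _) h2
      simp only [ov_cmp]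
      exact h3
    · simp only [hG, not_false_eq_true, if_true]
      have := PP_le_one hwo2 (wo_sum H.sum (l ^ D')) (fun ρ' : V → Option Bool =>
        ¬ Sm (s - 1) (fun x => f (ov (fun v => cmpO (ρ v, ρ' v)) x)))
      have h2 : (0 : ℝ) ≤ D' * S ^ D' * (4 * s * κ) ^ s := by positivity
      linarith
  refine (EE_mono hwo' hstep).trans ?_
  rw [EE_add, EE_const (wo_sum H.sum (l ^ (D + 1 + 1)))]
  have h2 : EE (wo w (l ^ (D + 1 + 1))) (fun ρ : V → Option Bool =>
      if ¬ Good P g lev s (D + 1) ρ then (1 : ℝ) else 0) =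
      PP (wo w (l ^ (D + 1 + 1))) (fun ρ : V → Option Bool => ¬ Good P g lev s (D + 1) ρ) :=
    (PP_eq _ _).symm
  rw [h2]
  push_cast at h1
  linarith

end rounds

section base

variable {V : Type} [Fintype V] [DecidableEq V] {t : ℕ} {w : Bool → ℝ} {l κ : ℝ}

/-- functions of one bit, when the bits are conjunctions of bits -/
theorem base_round (H : RW w l κ) {s : ℕ} (hs : 1 ≤ s) {f : (V → Bool) → Bool} (hf : Sm 1 f) :
    PP (wo w l) (fun ρ : V × Fin t → Option Bool => ¬ Sm (s - 1) (fun b => f (andB (ov ρ b)))) ≤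
      (4 * s * κ) ^ s := by
  classical
  have hκ := H.κ0
  have hwo := fun a => wo_nonneg H.nonneg H.l0 H.l1 a
  have hε : (0 : ℝ) ≤ (4 * s * κ) ^ s := by positivity
  have hcase : (∃ c, ∀ x, f x = c) ∨ (∃ v, ∀ x, f x = x v) ∨ (∃ v, ∀ x, f x = !(x v)) := by
    obtain ⟨T, h1, h2⟩ := hf
    cases T with
    | leaf c => exact Or.inl ⟨c, fun x => (h2 x).symm⟩
    | node v t0 t1 =>
      simp only [DT.depth] at h1
      have e0 : t0.depth = 0 := by omega
      have e1 : t1.depth = 0 := by omega
      cases t0 with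
      | node _ _ _ => simp only [DT.depth] at e0; omega
      | leaf c0 =>
        cases t1 with
        | node _ _ _ => simp only [DT.depth] at e1; omega
        | leaf c1 =>
          have h3 : ∀ x, f x = if x v then c1 else c0 := fun x => (h2 x).symm
          cases c0 <;> cases c1
          · exact Or.inl ⟨false, fun x => by rw [h3]; simp⟩
          · refine Or.inr (Or.inl ⟨v, fun x => ?_⟩)
            rw [h3]
            cases x v <;> simp
          · refine Or.inr (Or.inr ⟨v, fun x => ?_⟩)
            rw [h3]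
            cases x v <;> simp
          · exact Or.inl ⟨true, fun x => by rw [h3]; simp⟩
  have hsm : ∀ u : V × Fin t, Sm 1 (fun b : V × Fin t → Bool => b u) := by
    intro u
    refine ⟨DT.node u (DT.leaf false) (DT.leaf true), by simp [DT.depth], ?_⟩
    intro x
    simp only [DT.eval]
    cases x u <;> simp
  have hle : (4 * ((1 : ℕ) : ℝ) * κ) ^ s ≤ (4 * s * κ) ^ s := by
    apply pow_le_pow_left₀ (by positivity)
    have : ((1 : ℕ) : ℝ) ≤ s := by exact_mod_cast hs
    gcongr
  rcases hcase with ⟨c, hc⟩ | ⟨v, hv⟩ | ⟨v, hv⟩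
  · have h1 : ∀ ρ : V × Fin t → Option Bool, Sm (s - 1) (fun b => f (andB (ov ρ b))) :=
      fun ρ => Sm.const _ c fun b => hc _
    simp only [h1, not_true_eq_false]
    unfold PP EE
    simp only [if_false, mul_zero, Finset.sum_const_zero]
    exact hε
  · refine le_trans (gate_round H hs (fun (j : Fin t) (b : V × Fin t → Bool) => b (v, j))
      (fun j => hsm _) (fun b => f (andB b)) (Or.inl ?_)) hle
    intro b
    rw [hv]
    simp [andB]
  · refine le_trans (gate_round H hs (fun (j : Fin t) (b : V × Fin t → Bool) => !(b (v, j)))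
      (fun j => (hsm _).not) (fun b => f (andB b)) (Or.inr ?_)) hle
    intro b
    rw [hv]
    simp [andB]

end base

end Pool.Agent.WSatUp
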