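import Pool.Agent.WSatUp.Dep
import Pool.Agent.WSatUp.Rounds2

/-! Circuits with shared gates depend on few slots. -/

namespace Pool.Agent.WSatUp

open Finset Pool.Agent.ParityAC Pool.Agent.WSatAC0

section medium

variable {O E : Type} [Fintype O] [DecidableEq O] [Fintype E] [DecidableEq E]
  (ends : E → O × O) {N : ℕ}

theorem medium_gen (hinj : Function.Injective ends) (hN : 1 ≤ N) {w : Bool → ℝ}
    (hw : ∀ a, 0 ≤ w a) {q : ℝ} (h0 : 0 < q) (h1 : q ≤ 1) {d r : ℕ} {err : ℝ} (herr0 : 0 ≤ err)
    (f : (VB E N → Bool) → Bool)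
    (hdep : ∀ F : Finset E, q ^ F.card * P2 (un N) w (fun ω x => Dp ends f x ω = F) ≤
      ((2 : ℝ) ^ d) ^ F.card * (1 / N) ^ (tch ends F).card + err) :
    P2 (un N) w (Md ends r f) ≤ mu E N r d q err := by
  classical
  have hu := un_nonneg N
  let m0 := 4 * r ^ 2
  let K : ℝ := (q⁻¹) ^ m0 * (((2 : ℝ) ^ d) ^ m0 * (1 / N) ^ (r + 1) + err)
  have hl1 : 1 ≤ q⁻¹ := (one_le_inv₀ h0).2 h1
  have hK : ∀ F : Finset E, F.card ≤ m0 → r < (tch ends F).card →
      P2 (un N) w (fun ω x => Dp ends f x ω = F) ≤ K := by
    intro F hF1 hF2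
    have h3 : P2 (un N) w (fun ω x => Dp ends f x ω = F) ≤
        (q⁻¹) ^ F.card * (((2 : ℝ) ^ d) ^ F.card * (1 / N) ^ (tch ends F).card + err) := by
      have hlF : 0 < q ^ F.card := pow_pos h0 _
      rw [inv_pow]
      rw [inv_mul_eq_div, le_div_iff₀ hlF]
      calc _ = q ^ F.card * P2 (un N) w (fun ω x => Dp ends f x ω = F) := by ring
        _ ≤ _ := hdep F
    refine h3.trans ?_
    have hN1 : (1 : ℝ) / N ≤ 1 := by
      rw [div_le_one (by exact_mod_cast hN)]
      exact_mod_cast hN
    have hN0 : (0 : ℝ) ≤ 1 / N := by positivity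
    have e1 : (q⁻¹) ^ F.card ≤ (q⁻¹) ^ m0 := pow_le_pow_right₀ hl1 hF1
    have e2 : ((2 : ℝ) ^ d) ^ F.card ≤ ((2 : ℝ) ^ d) ^ m0 :=
      pow_le_pow_right₀ (one_le_pow₀ (by norm_num)) hF1
    have e3 : (1 / (N : ℝ)) ^ (tch ends F).card ≤ (1 / N) ^ (r + 1) :=
      pow_le_pow_of_le_one hN0 hN1 hF2
    have e4 : 0 ≤ (q⁻¹) ^ m0 := by positivity
    have e5 : ((2 : ℝ) ^ d) ^ F.card * (1 / N) ^ (tch ends F).card ≤
        ((2 : ℝ) ^ d) ^ m0 * (1 / N) ^ (r + 1) :=
      mul_le_mul e2 e3 (by positivity) (by positivity)
    exact mul_le_mul e1 (by linarith) (by positivity) e4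
  have h2 : P2 (un N) w (Md ends r f) ≤
      P2 (un N) w (fun ω x => ∃ F ∈ (smallSets E m0).filter (fun F => r < (tch ends F).card),
        Dp ends f x ω = F) := by
    apply P2_mono hu hw
    rintro ω x ⟨h3, h4⟩
    refine ⟨Dp ends f x ω, ?_, rfl⟩
    rw [Finset.mem_filter]
    refine ⟨mem_smallSets ?_, h3⟩
    refine (card_le_tch ends hinj _).trans ?_
    calc (tch ends (Dp ends f x ω)).card ^ 2 ≤ (2 * r) ^ 2 := Nat.pow_le_pow_left h4 2
      _ = m0 := by ring
  refine h2.trans ((P2_exists hu hw _ _).trans ?_)
  have h6 : ∀ F ∈ (smallSets E m0).filter (fun F => r < (tch ends F).card),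
      P2 (un N) w (fun ω x => Dp ends f x ω = F) ≤ K := by
    intro F hF
    have hc : F.card ≤ m0 := by
      obtain ⟨c, _, rfl⟩ := Finset.mem_image.1 (Finset.mem_filter.1 hF).1
      have : (univ.filter fun e => ∃ i, c i = some e) ⊆
          (univ : Finset (Fin m0)).biUnion fun i => (c i).toFinset := by
        intro e he
        obtain ⟨i, hi⟩ := (Finset.mem_filter.1 he).2
        exact Finset.mem_biUnion.2 ⟨i, Finset.mem_univ _, by rw [Option.mem_toFinset]; exact hi⟩
      refine (Finset.card_le_card this).trans ?_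
      refine (Finset.card_biUnion_le_card_mul _ _ 1 ?_).trans ?_
      · intro i _
        rw [Option.card_toFinset]
        cases c i <;> simp
      · simp
    exact hK F hc (Finset.mem_filter.1 hF).2
  have hK0 : 0 ≤ K := by
    have : 0 ≤ q⁻¹ := le_trans zero_le_one hl1
    positivity
  refine (Finset.sum_le_sum h6).trans ?_
  rw [Finset.sum_const, nsmul_eq_mul]
  have h7 : (((smallSets E m0).filter (fun F => r < (tch ends F).card)).card : ℝ) ≤
      ((Fintype.card E + 1 : ℕ) : ℝ) ^ m0 := by
    have := (Finset.card_filter_le (smallSets E m0) (fun F => r < (tch ends F).card)).trans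
      (smallSets_card m0)
    exact_mod_cast this
  exact mul_le_mul_of_nonneg_right h7 hK0

omit [Fintype O] in
theorem gd_const {r : ℕ} {c : Bool} {h : (VB E N → Bool) → Bool} (hh : ∀ x, h x = c)
    (ω : O → Fin N) (x : VB E N → Bool) : Gd ends r h ω x := by
  have h1 : Dp ends h x ω = ∅ := by
    rw [Finset.eq_empty_iff_forall_notMem]
    intro e he
    obtain ⟨y, hy⟩ := (mem_Dp ends).1 he
    exact hy (by simp only [hh])
  show (tch ends (Dp ends h x ω)).card ≤ r
  rw [h1]
  simp [tch]

omit [Fintype O] in
theorem dp_not {h h' : (VB E N → Bool) → Bool} (hh : ∀ x, h' x = !(h x)) (ω : O → Fin N)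
    (x : VB E N → Bool) : Dp ends h' x ω = Dp ends h x ω := by
  ext e
  rw [mem_Dp, mem_Dp]
  constructor
  · rintro ⟨y, hy⟩
    refine ⟨y, fun h1 => hy ?_⟩
    simp only at h1
    simp only [hh, h1]
  · rintro ⟨y, hy⟩
    refine ⟨y, fun h1 => hy ?_⟩
    simp only [hh] at h1
    simpa using h1

omit [Fintype O] in
theorem gd_step {r : ℕ} {p p' h : (VB E N → Bool) → Bool} {ω : O → Fin N} {x : VB E N → Bool}
    (hp : Gd ends r p ω x) (hh : Gd ends r h ω x)
    (hs : Dp ends p' x ω ⊆ Dp ends p x ω ∪ Dp ends h x ω) (hm : ¬ Md ends r p' ω x) :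
    Gd ends r p' ω x := by
  by_contra hcon
  apply hm
  refine ⟨not_le.1 hcon, ?_⟩
  have h8 := Finset.card_le_card (tch_mono ends hs)
  rw [tch_union] at h8
  have h9 := h8.trans (Finset.card_union_le _ _)
  unfold Gd at hp hh
  omega

omit [Fintype O] in
theorem gd_sm1 {r : ℕ} (hr : 2 ≤ r) {f : (VB E N → Bool) → Bool} (hf : Sm 1 f)
    (ω : O → Fin N) (x : VB E N → Bool) : Gd ends r f ω x := by
  classical
  obtain ⟨t, ht1, ht2⟩ := hf
  have h1 : Dp ends f x ω ⊆ (dtVars t).image Prod.fst := by
    intro e he
    obtain ⟨y, hy⟩ := (mem_Dp ends).1 he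
    refine Finset.mem_image.2 ⟨st ends ω e, ?_, rfl⟩
    apply relv_mem ht2
    refine ⟨inst ends x ω y, ?_⟩
    rw [← inst_flp]
    exact hy
  have h2 : (Dp ends f x ω).card ≤ 1 := by
    have h3 := (Finset.card_le_card h1).trans Finset.card_image_le
    have h4 := dtVars_card t 1 ht1
    omega
  show (tch ends (Dp ends f x ω)).card ≤ r
  have h5 := Finset.card_union_le ((Dp ends f x ω).image fun e => (ends e).1)
    ((Dp ends f x ω).image fun e => (ends e).2)
  have h6 := Finset.card_image_le (s := Dp ends f x ω) (f := fun e => (ends e).1)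
  have h7 := Finset.card_image_le (s := Dp ends f x ω) (f := fun e => (ends e).2)
  have h8 : (tch ends (Dp ends f x ω)).card ≤ _ := h5
  omega

/-- one gate of a circuit -/
theorem gate_good {m r : ℕ} (hr : 2 ≤ r) {g : Fin m → (VB E N → Bool) → Bool} {lev : Fin m → ℕ}
    (hC : CK (Sm 1) g lev) (i : Fin m) : ∃ p : ℕ → (VB E N → Bool) → Bool,
      (∀ j, ACG (Cl g) m 1 (p j)) ∧
      ∀ (ω : O → Fin N) (x : VB E N → Bool), (∀ j ≤ m, ¬ Md ends r (p j) ω x) →
        (∀ k, lev k < lev i → Gd ends r (g k) ω x) → Gd ends r (g i) ω x := by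
  classical
  have hconst : ACG (Cl g) m 1 (fun _ => true) :=
    ⟨0, Nat.zero_le _, fun j => j.elim0, fun j => j.elim0, Or.inl fun x => by simp⟩
  rcases hC i with h | ⟨j, h1, h2⟩ | ⟨T, h1, h2⟩
  · exact ⟨fun _ _ => true, fun _ => hconst, fun ω x _ _ => gd_sm1 ends hr h ω x⟩
  · refine ⟨fun _ _ => true, fun _ => hconst, fun ω x _ h3 => ?_⟩
    have h4 := h3 j h1
    unfold Gd at h4 ⊢
    rw [dp_not ends h2]
    exact h4
  · rcases h2 with h2 | h2
    · refine ⟨fun j x => decide (∀ k ∈ T, k.1 < j → g k x = true), ?_, ?_⟩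
      · intro j
        refine ⟨m, le_refl _, fun k => if k ∈ T ∧ k.1 < j then g k else fun _ => true, ?_,
          Or.inl ?_⟩
        · intro k
          by_cases hk : k ∈ T ∧ k.1 < j
          · beta_reduce
            rw [if_pos hk]
            exact Or.inr (Or.inl ⟨k, fun _ => rfl⟩)
          · beta_reduce
            rw [if_neg hk]
            exact Or.inl ⟨true, fun _ => rfl⟩
        · intro x
          rw [decide_eq_true_eq]
          constructor
          · intro h k
            beta_reduce
            by_cases hk : k ∈ T ∧ k.1 < j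
            · rw [if_pos hk]
              exact h k hk.1 hk.2
            · rw [if_neg hk]
          · intro h k hk1 hk2
            have := h k
            beta_reduce at this
            rwa [if_pos ⟨hk1, hk2⟩] at this
      · intro ω x h3 h4
        have key : ∀ j ≤ m, Gd ends r (fun x => decide (∀ k ∈ T, k.1 < j → g k x = true)) ω x := by
          intro j
          induction j with
          | zero =>
            intro _
            exact gd_const ends (c := true) (fun x => by simp) ω x
          | succ j ih =>
            intro hj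
            have ih' := ih (by omega)
            have hj' : j < m := by omega
            have hh : Gd ends r (if (⟨j, hj'⟩ : Fin m) ∈ T then g ⟨j, hj'⟩ else fun _ => true)
                ω x := by
              by_cases hjT : (⟨j, hj'⟩ : Fin m) ∈ T
              · rw [if_pos hjT]
                exact h4 _ (h1 _ hjT)
              · rw [if_neg hjT]
                exact gd_const ends (c := true) (fun _ => rfl) ω x
            refine gd_step ends ih' hh ?_ (h3 (j + 1) hj)
            intro e he
            rw [Finset.mem_union, mem_Dp, mem_Dp]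
            refine relv_and ?_ ((mem_Dp ends).1 he)
            intro y
            rw [Bool.eq_iff_iff, Bool.and_eq_true, decide_eq_true_eq, decide_eq_true_eq]
            constructor
            · intro h
              refine ⟨fun k hk hkj => h k hk (by omega), ?_⟩
              by_cases hjT : (⟨j, hj'⟩ : Fin m) ∈ T
              · rw [if_pos hjT]
                exact h _ hjT (by simp)
              · rw [if_neg hjT]
            · rintro ⟨h5, h6⟩ k hk hkj
              rcases Nat.lt_succ_iff_lt_or_eq.1 hkj with h7 | h7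
              · exact h5 k hk h7
              · have hkj' : k = ⟨j, hj'⟩ := Fin.ext h7
                subst hkj'
                rwa [if_pos hk] at h6
        have h5 := key m (le_refl _)
        have h6 : (fun x => decide (∀ k ∈ T, k.1 < m → g k x = true)) = g i := by
          funext x
          rw [Bool.eq_iff_iff, decide_eq_true_eq, h2]
          exact ⟨fun h k hk => h k hk k.2, fun h k hk _ => h k hk⟩
        rwa [h6] at h5
    · refine ⟨fun j x => decide (∃ k ∈ T, k.1 < j ∧ g k x = true), ?_, ?_⟩
      · intro j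
        refine ⟨m, le_refl _, fun k => if k ∈ T ∧ k.1 < j then g k else fun _ => false, ?_,
          Or.inr ?_⟩
        · intro k
          by_cases hk : k ∈ T ∧ k.1 < j
          · beta_reduce
            rw [if_pos hk]
            exact Or.inr (Or.inl ⟨k, fun _ => rfl⟩)
          · beta_reduce
            rw [if_neg hk]
            exact Or.inl ⟨false, fun _ => rfl⟩
        · intro x
          rw [decide_eq_true_eq]
          constructor
          · rintro ⟨k, hk1, hk2, h⟩
            refine ⟨k, ?_⟩
            beta_reduce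
            rwa [if_pos ⟨hk1, hk2⟩]
          · rintro ⟨k, h⟩
            beta_reduce at h
            by_cases hk : k ∈ T ∧ k.1 < j
            · rw [if_pos hk] at h
              exact ⟨k, hk.1, hk.2, h⟩
            · rw [if_neg hk] at h
              exact absurd h (by simp)
      · intro ω x h3 h4
        have key : ∀ j ≤ m, Gd ends r (fun x => decide (∃ k ∈ T, k.1 < j ∧ g k x = true)) ω x := by
          intro j
          induction j with
          | zero =>
            intro _
            exact gd_const ends (c := false) (fun x => by simp) ω x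
          | succ j ih =>
            intro hj
            have ih' := ih (by omega)
            have hj' : j < m := by omega
            have hh : Gd ends r (if (⟨j, hj'⟩ : Fin m) ∈ T then g ⟨j, hj'⟩ else fun _ => false)
                ω x := by
              by_cases hjT : (⟨j, hj'⟩ : Fin m) ∈ T
              · rw [if_pos hjT]
                exact h4 _ (h1 _ hjT)
              · rw [if_neg hjT]
                exact gd_const ends (c := false) (fun _ => rfl) ω x
            refine gd_step ends ih' hh ?_ (h3 (j + 1) hj)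
            intro e he
            rw [Finset.mem_union, mem_Dp, mem_Dp]
            refine relv_or ?_ ((mem_Dp ends).1 he)
            intro y
            rw [Bool.eq_iff_iff, Bool.or_eq_true, decide_eq_true_eq, decide_eq_true_eq]
            constructor
            · rintro ⟨k, hk, hkj, h⟩
              rcases Nat.lt_succ_iff_lt_or_eq.1 hkj with h7 | h7
              · exact Or.inl ⟨k, hk, h7, h⟩
              · have hkj' : k = ⟨j, hj'⟩ := Fin.ext h7
                subst hkj'
                right
                rwa [if_pos hk]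
            · rintro (⟨k, hk, hkj, h⟩ | h)
              · exact ⟨k, hk, by omega, h⟩
              · by_cases hjT : (⟨j, hj'⟩ : Fin m) ∈ T
                · rw [if_pos hjT] at h
                  exact ⟨_, hjT, by simp, h⟩
                · rw [if_neg hjT] at h
                  exact absurd h (by simp)
        have h5 := key m (le_refl _)
        have h6 : (fun x => decide (∃ k ∈ T, k.1 < m ∧ g k x = true)) = g i := by
          funext x
          rw [Bool.eq_iff_iff, decide_eq_true_eq, h2]
          exact ⟨fun ⟨k, hk, _, h⟩ => ⟨k, hk, h⟩, fun ⟨k, hk, h⟩ => ⟨k, hk, k.2, h⟩⟩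
        rwa [h6] at h5

/-- all gates of a circuit -/
theorem dag_good {w : Bool → ℝ} (hw : ∀ a, 0 ≤ w a) {m r : ℕ} (hr : 2 ≤ r)
    {g : Fin m → (VB E N → Bool) → Bool} {lev : Fin m → ℕ} (hC : CK (Sm 1) g lev) {μ : ℝ}
    (hμ : ∀ f : (VB E N → Bool) → Bool, ACG (Cl g) m 1 f → P2 (un N) w (Md ends r f) ≤ μ) :
    P2 (un N) w (fun ω x => ¬ ∀ i, Gd ends r (g i) ω x) ≤ m * ((m + 1) * μ) := by
  classical
  have hu := un_nonneg N
  choose p hp1 hp2 using gate_good ends hr hC
  have h1 : P2 (un N) w (fun ω x => ¬ ∀ i, Gd ends r (g i) ω x) ≤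
      P2 (un N) w (fun ω x => ∃ c ∈ (univ : Finset (Fin m × Fin (m + 1))),
        Md ends r (p c.1 c.2.1) ω x) := by
    apply P2_mono hu hw
    intro ω x h
    by_contra hcon
    push Not at hcon
    apply h
    have key : ∀ n : ℕ, ∀ i, lev i = n → Gd ends r (g i) ω x := by
      intro n
      induction n using Nat.strong_induction_on with
      | _ n ih =>
        intro i hi
        refine hp2 i ω x ?_ ?_
        · intro j hj
          exact hcon (i, ⟨j, by omega⟩) (Finset.mem_univ _)
        · intro k hk
          exact ih (lev k) (by omega) k rfl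
    exact fun i => key (lev i) i rfl
  refine h1.trans ((P2_exists hu hw _ _).trans ?_)
  refine (Finset.sum_le_sum fun c _ => hμ _ (hp1 c.1 c.2.1)).trans ?_
  rw [Finset.sum_const, Finset.card_univ, Fintype.card_prod, Fintype.card_fin, Fintype.card_fin,
    nsmul_eq_mul]
  push_cast
  linarith

end medium

end Pool.Agent.WSatUp
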